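import Pool.Agent.Mg.F66a317.G817b5a

open MeasureTheory Set Filter
open scoped ENNReal

namespace Pool.Agent.MP_66a317_pr.All

open Fast

theorem half_bridge {X : Type} [MeasurableSpace X] {P V : ℝ} (hP : 0 < P) (F : ℝ → X)
    (hF : Measurable F) (C : Set X) (A : Set ℝ) (hA : A ⊆ Ico 0 P ∩ F ⁻¹' C)
    (hV : ENNReal.ofReal V ≤ volume A) :
    ENNReal.ofReal (V / (2 * P)) ≤
      ((2 : ℝ≥0∞)⁻¹ • (ProbabilityTheory.cond volume (Ico 0 P)).map F) C := by
  rw [Measure.smul_apply, smul_eq_mul]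
  refine le_trans ?_ (mul_le_mul_right (Measure.le_map_apply hF.aemeasurable C) _)
  rw [ProbabilityTheory.cond_apply measurableSet_Ico, Real.volume_Ico, sub_zero,
    ENNReal.ofReal_div_of_pos (by positivity), ENNReal.ofReal_mul (by norm_num),
    ENNReal.ofReal_ofNat, div_eq_mul_inv,
    ENNReal.mul_inv (Or.inl (by norm_num)) (Or.inl (by norm_num)), mul_comm, mul_assoc]
  exact mul_le_mul_right (mul_le_mul_right (hV.trans (measure_mono hA)) _) _

theorem bridge : BridgeStmt := by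
  intro r w P V σ _ hP h0 hl hm hV
  let F1 : ℝ → Traj (-1) 1 := fun φ => ⟨fun t => σ φ t, h0 φ, fun s t => by
    rw [one_mul, NNReal.dist_eq]
    exact hl φ s t s.2 t.2⟩
  let F2 : ℝ → Traj (-1) 1 := fun φ => ⟨fun t => (starRingEnd ℂ) (σ φ t), by simp [h0 φ],
    fun s t => by
      rw [one_mul, NNReal.dist_eq, Complex.dist_conj_conj]
      exact hl φ s t s.2 t.2⟩
  have m1 : Measurable F1 := Measurable.subtype_mk (measurable_pi_lambda _ fun t : NNReal => hm t)
  have m2 : Measurable F2 := Measurable.subtype_mk (measurable_pi_lambda _ fun t : NNReal =>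
    Complex.continuous_conj.measurable.comp (hm t))
  have hν : IsProbabilityMeasure (ProbabilityTheory.cond (volume : Measure ℝ) (Ico 0 P)) :=
    ProbabilityTheory.cond_isProbabilityMeasure_of_finite (by simpa using hP) (by simp)
  have p1 := Measure.isProbabilityMeasure_map
    (μ := ProbabilityTheory.cond (volume : Measure ℝ) (Ico 0 P)) m1.aemeasurable
  have p2 := Measure.isProbabilityMeasure_map
    (μ := ProbabilityTheory.cond (volume : Measure ℝ) (Ico 0 P)) m2.aemeasurable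
  have hμ : IsProbabilityMeasure
      ((2 : ℝ≥0∞)⁻¹ • (ProbabilityTheory.cond (volume : Measure ℝ) (Ico 0 P)).map F1 +
        (2 : ℝ≥0∞)⁻¹ • (ProbabilityTheory.cond (volume : Measure ℝ) (Ico 0 P)).map F2) :=
    ⟨by simp [ENNReal.inv_two_add_inv_two]⟩
  refine le_iSup_of_le ⟨_, hμ⟩ (le_iInf fun h => ?_)
  rw [ProbabilityMeasure.coe_mk, Measure.add_apply]
  rcases hV (fun t => h.1 t.toNNReal) (by simpa using h.2.1) (fun s t =>
    (h.2.2 _ _).trans (mul_le_mul_of_nonneg_left (dist_toNNReal_le s t) ‹_›)) with h1 | h1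
  · refine le_add_right (half_bridge hP F1 m1 _ _ ?_ h1)
    rintro φ ⟨hφ, t, ht, hd⟩
    refine ⟨hφ, t.toNNReal, ?_⟩
    show dist (σ φ t.toNNReal) (h.1 t.toNNReal) ≤ r
    rwa [Real.coe_toNNReal t ht]
  · refine le_add_left (half_bridge hP F2 m2 _ _ ?_ h1)
    rintro φ ⟨hφ, t, ht, hd⟩
    refine ⟨hφ, t.toNNReal, ?_⟩
    show dist ((starRingEnd ℂ) (σ φ t.toNNReal)) (h.1 t.toNNReal) ≤ r
    rwa [Real.coe_toNNReal t ht, ← Complex.dist_conj_conj, Complex.conj_conj]

/-- uniformly chosen rays at full speed -/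
theorem low_ray {r ε : ℝ} (hr : 0 < r) (hr1 : r ≤ 1) (hε : 0 < ε) (hε1 : ε < 1) :
    ENNReal.ofReal (r * ε / 10) ≤ value r (1 - ε) (-1) := by
  have h := bridge r (1 - ε) 10 (2 * (r * ε)) (fun φ t => -1 + (t : ℂ) * cis (φ - 5))
    (by linarith) (by norm_num) (fun φ => by simp) (fun φ s t _ _ => by
      rw [dist_add_left, dist_mul_cis, Complex.dist_eq, ← Complex.ofReal_sub, Complex.norm_real,
        Real.norm_eq_abs])
    (fun t => Continuous.measurable (by fun_prop)) (fun h h0 hL => Or.inl (by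
      have hc : Continuous h := by
        refine (LipschitzWith.of_dist_le_mul (K := ⟨1 - ε, by linarith⟩) fun s t => ?_).continuous
        rw [Real.dist_eq]
        exact hL s t
      have hn : ∀ t, 0 ≤ t → ‖h t‖ ≤ (1 - ε) * t := fun t ht => by
        have := hL t 0
        rwa [h0, dist_zero_right, sub_zero, abs_of_nonneg ht] at this
      have hT : 0 ≤ 1 / ε := by positivity
      have e0 : ε * (1 / ε) = 1 := by field_simp
      have hend : ‖h (1 / ε) + 1‖ - 1 / ε ≤ 0 := by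
        have := norm_add_le_of_le (hn _ hT) (norm_one (α := ℂ)).le
        nlinarith
      obtain ⟨t, ht, hz⟩ := intermediate_value_Icc' (f := fun t => ‖h t + 1‖ - t) hT
        (by fun_prop) (show (0 : ℝ) ∈ Icc _ _ from ⟨hend, by simp [h0]⟩)
      have hρ : ‖h t + 1‖ = t := by simpa [sub_eq_zero] using hz
      have hpol : h t = -1 + (t : ℂ) * cis (Complex.arg (h t + 1)) := by
        have := norm_mul_cis_arg (h t + 1)
        rw [hρ] at this
        rw [this]
        ring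
      set θ := Complex.arg (h t + 1)
      have a1 : -Real.pi < θ := Complex.neg_pi_lt_arg _
      have a2 : θ ≤ Real.pi := Complex.arg_le_pi _
      have a3 := Real.pi_lt_four
      have a4 : 0 < r * ε := by positivity
      have a5 : r * ε ≤ 1 := by nlinarith
      refine le_trans ?_ (measure_mono (s := Icc (θ + 5 - r * ε) (θ + 5 + r * ε)) fun φ hφ =>
        ⟨⟨by linarith [hφ.1], by linarith [hφ.2]⟩, t, ht.1, ?_⟩)
      · rw [Real.volume_Icc]
        exact ENNReal.ofReal_le_ofReal (by linarith)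
      · rw [hpol, dist_add_left]
        have b1 := chord_le ht.1 ht.1 (φ - 5) θ
        have b2 : (φ - 5 - θ) ^ 2 ≤ (r * ε) ^ 2 :=
          sq_le_sq' (by linarith [hφ.1]) (by linarith [hφ.2])
        have b3 : ε * t ≤ 1 := by
          have := mul_le_mul_of_nonneg_left ht.2 hε.le
          linarith
        have b4 : (ε * t) ^ 2 ≤ 1 ^ 2 := pow_le_pow_left₀ (mul_nonneg hε.le ht.1) b3 2
        have b5 : t * t * (φ - 5 - θ) ^ 2 ≤ t * t * (r * ε) ^ 2 :=
          mul_le_mul_of_nonneg_left b2 (mul_self_nonneg t)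
        have b6 : r ^ 2 * (ε * t) ^ 2 ≤ r ^ 2 * 1 ^ 2 := mul_le_mul_of_nonneg_left b4 (sq_nonneg r)
        refine le_of_sq_le_sq ?_ hr.le
        nlinarith))
  refine le_trans (ENNReal.ofReal_le_ofReal (le_of_eq ?_)) h
  ring

/-- the logarithmic spiral has speed at most one -/
theorem spiral_lip {e κ t0 : ℝ} (he : 0 ≤ e) (he1 : e ≤ 1) (hκ : (1 - e) ^ 2 + κ ^ 2 ≤ 1)
    (h0 : 0 < t0) (z0 : ℝ) :
    spath (fun _ => e) (fun _ => 0) t0 z0 κ 0 0 = -1 ∧ ∀ s t, 0 ≤ s → 0 ≤ t →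
      dist (spath (fun _ => e) (fun _ => 0) t0 z0 κ 0 s)
        (spath (fun _ => e) (fun _ => 0) t0 z0 κ 0 t) ≤ |s - t| := by
  have hP : Profile (fun _ => e) (fun _ => 0) e κ 0 0 1 1 0 := by
    refine ⟨continuous_const, continuous_const, fun _ => ⟨he, by simp⟩, fun _ => ⟨le_rfl, le_rfl⟩,
      fun _ _ _ _ => ⟨le_rfl, le_rfl⟩, fun _ _ _ _ => ⟨le_rfl, le_rfl⟩, fun _ => ⟨rfl, rfl⟩,
      fun s1 s2 hs => ?_⟩
    exact piece_Master (Λ := fun _ => e) (Q := fun _ => 0) (k := κ) (a := s1) (b := s2)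
      (1 - e) κ 0 0 hκ (fun s _ _ => ⟨he, he1, by ring, rfl⟩) s1 s2 le_rfl hs le_rfl
  obtain ⟨p1, p2, -⟩ := path_stmt _ _ e κ 0 0 1 1 0 t0 z0 hP h0 (by simpa using he1)
  exact ⟨p1 0, p2 0⟩

end Pool.Agent.MP_66a317_pr.All
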