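import Pool.Agent.MP_66a317_pr.All.Cap

open MeasureTheory Set Filter
open scoped ENNReal

namespace Pool.Agent.MP_66a317_pr.All

open Fast

theorem half_sum {X : Type} [MeasurableSpace X] {P : ℝ} (hP : 0 < P) (F : ℝ → X)
    (hF : Measurable F) (C : Set X) (A : Set ℝ) (hA : A ⊆ Ico 0 P ∩ F ⁻¹' C) :
    ENNReal.ofReal (1 / (2 * P)) * volume A ≤
      ((2 : ℝ≥0∞)⁻¹ • (ProbabilityTheory.cond volume (Ico 0 P)).map F) C := by
  rw [Measure.smul_apply, smul_eq_mul]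
  refine le_trans ?_ (mul_le_mul_right (Measure.le_map_apply hF.aemeasurable C) _)
  rw [ProbabilityTheory.cond_apply measurableSet_Ico, Real.volume_Ico, sub_zero,
    ENNReal.ofReal_div_of_pos (by positivity), ENNReal.ofReal_mul (by norm_num),
    ENNReal.ofReal_ofNat, ENNReal.ofReal_one, one_div,
    ENNReal.mul_inv (Or.inl (by norm_num)) (Or.inl (by norm_num)), mul_assoc]
  exact mul_le_mul_right (mul_le_mul_right (measure_mono hA) _) _

theorem bridge_sum (r w P V : ℝ) (σ : ℝ → ℝ → ℂ) (hw : 0 ≤ w) (hP : 0 < P)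
    (h0 : ∀ φ, σ φ 0 = -1)
    (hl : ∀ φ s t, 0 ≤ s → 0 ≤ t → dist (σ φ s) (σ φ t) ≤ |s - t|)
    (hm : ∀ t, Measurable fun φ => σ φ t)
    (hV : ∀ h : ℝ → ℂ, h 0 = 0 → (∀ s t, dist (h s) (h t) ≤ w * |s - t|) →
      ENNReal.ofReal V ≤ volume {φ | φ ∈ Ico 0 P ∧ ∃ t, 0 ≤ t ∧ dist (σ φ t) (h t) ≤ r} +
        volume {φ | φ ∈ Ico 0 P ∧ ∃ t, 0 ≤ t ∧ dist (σ φ t) ((starRingEnd ℂ) (h t)) ≤ r}) :
    ENNReal.ofReal (1 / (2 * P) * V) ≤ value r w (-1) := by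
  let F1 : ℝ → Traj (-1) 1 := fun φ => ⟨fun t => σ φ t, h0 φ, fun s t => by
    rw [one_mul, NNReal.dist_eq]
    exact hl φ s t s.2 t.2⟩
  let F2 : ℝ → Traj (-1) 1 := fun φ => ⟨fun t => (starRingEnd ℂ) (σ φ t), by simp [h0 φ],
    fun s t => by
      rw [one_mul, NNReal.dist_eq, Complex.dist_conj_conj]
      exact hl φ s t s.2 t.2⟩
  have m1 : Measurable F1 := Measurable.subtype_mk (measurable_pi_lambda _ fun t : NNReal => hm t)
  have m2 : Measurable F2 := Measurable.subtype_mk (measurable_pi_lambda _ fun t : NNReal =>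
    Complex.continuous_conj.measurable.comp (hm t))
  have hν : IsProbabilityMeasure (ProbabilityTheory.cond (volume : Measure ℝ) (Ico 0 P)) :=
    ProbabilityTheory.cond_isProbabilityMeasure_of_finite (by simpa using hP) (by simp)
  have p1 := Measure.isProbabilityMeasure_map
    (μ := ProbabilityTheory.cond (volume : Measure ℝ) (Ico 0 P)) m1.aemeasurable
  have p2 := Measure.isProbabilityMeasure_map
    (μ := ProbabilityTheory.cond (volume : Measure ℝ) (Ico 0 P)) m2.aemeasurable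
  have hμ : IsProbabilityMeasure
      ((2 : ℝ≥0∞)⁻¹ • (ProbabilityTheory.cond (volume : Measure ℝ) (Ico 0 P)).map F1 +
        (2 : ℝ≥0∞)⁻¹ • (ProbabilityTheory.cond (volume : Measure ℝ) (Ico 0 P)).map F2) :=
    ⟨by simp [ENNReal.inv_two_add_inv_two]⟩
  refine le_iSup_of_le ⟨_, hμ⟩ (le_iInf fun h => ?_)
  rw [ProbabilityMeasure.coe_mk, Measure.add_apply]
  have h1 := hV (fun t => h.1 t.toNNReal) (by simpa using h.2.1) (fun s t =>
    (h.2.2 _ _).trans (mul_le_mul_of_nonneg_left (dist_toNNReal_le s t) hw))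
  rw [ENNReal.ofReal_mul (by positivity)]
  refine (mul_le_mul_right h1 _).trans ?_
  rw [mul_add]
  refine add_le_add (half_sum hP F1 m1 _ _ ?_) (half_sum hP F2 m2 _ _ ?_)
  · rintro φ ⟨hφ, t, ht, hd⟩
    refine ⟨hφ, t.toNNReal, ?_⟩
    show dist (σ φ t.toNNReal) (h.1 t.toNNReal) ≤ r
    rwa [Real.coe_toNNReal t ht]
  · rintro φ ⟨hφ, t, ht, hd⟩
    refine ⟨hφ, t.toNNReal, ?_⟩
    show dist ((starRingEnd ℂ) (σ φ t.toNNReal)) (h.1 t.toNNReal) ≤ r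
    rwa [Real.coe_toNNReal t ht, ← Complex.dist_conj_conj, Complex.conj_conj]

/-- spirals with a random phase, and a barrier ray of small weight -/
noncomputable def fam2 (e κ t0 B V φ t : ℝ) : ℂ :=
  if φ < 2 * (B + 2 * V) then spath (fun _ => e) (fun _ => 0) t0 (φ - (B + 2 * V)) κ 0 t
  else -1 + (t : ℂ) * cis B

/-- the phases that capture `g` -/
def wins2 (e κ t0 B V δ : ℝ) (g : ℝ → ℂ) : Set ℝ :=
  {φ | φ ∈ Ico 0 (2 * B + 6 * V) ∧ ∃ t, 0 ≤ t ∧ dist (fam2 e κ t0 B V φ t) (g t) ≤ 1 - δ}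

theorem barrier2 {e κ t0 B V δ ε te : ℝ} {g : ℝ → ℂ} (hε : 0 < ε) (hB : 0 ≤ B) (hV : 0 < V)
    (hcos : Real.cos B ≤ 1 - δ) (hc : Continuous g) (h0 : g 0 = 0)
    (hn : ∀ t, 0 ≤ t → ‖g t‖ ≤ (1 - ε) * t) (hge : ∀ t, 0 ≤ t → t ≤ te → t ≤ ‖g t + 1‖)
    {t : ℝ} (ht0 : 0 ≤ t) (ht : t ≤ te) (hθ : B ≤ Complex.arg (g t + 1)) :
    ENNReal.ofReal (2 * V) ≤ volume (wins2 e κ t0 B V δ g) := by
  obtain ⟨s, hs, hz⟩ := intermediate_value_Icc ht0
    (arg_cont hε hc hn le_rfl fun s h1 h2 => hge s h1 (h2.trans ht))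
    (show B ∈ Icc _ _ from ⟨by simpa [h0] using hB, hθ⟩)
  have hz' : Complex.arg (g s + 1) = B := hz
  have h1 := hge s hs.1 (hs.2.trans ht)
  have h2 := re_mul_cis_le (g s) (-B)
  have h3 : g s * cis (-B) = ‖g s + 1‖ - cis (-B) := by
    have h4 := polar (g s)
    rw [hz'] at h4
    linear_combination cis (-B) * h4 + (‖g s + 1‖ : ℂ) * cis_mul_neg B
  rw [h3, Complex.sub_re, Complex.ofReal_re, cis_re, Real.cos_neg] at h2
  have h5 := hn s hs.1
  have h6 : dist (-1 + (s : ℂ) * cis B) (g s) ≤ 1 - δ := by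
    have h4 := polar (g s)
    rw [hz'] at h4
    refine (congrArg (dist _) h4).le.trans ?_
    rw [dist_add_left, dist_mul_cis, Complex.dist_eq, ← Complex.ofReal_sub, Complex.norm_real,
      Real.norm_eq_abs, abs_sub_comm, abs_of_nonneg (by linarith)]
    nlinarith [mul_nonneg hε.le hs.1]
  refine le_trans ?_ (measure_mono (s := Ico (2 * (B + 2 * V)) (2 * B + 6 * V)) fun φ hφ =>
    ⟨⟨by linarith [hφ.1], hφ.2⟩, s, hs.1, by rwa [fam2, if_neg (not_lt.2 hφ.1)]⟩)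
  rw [Real.volume_Ico]
  exact ENNReal.ofReal_le_ofReal (by linarith)

theorem window2 {e κ t0 T B V δ te : ℝ} {g : ℝ → ℂ} (he : 0 ≤ e) (he1 : e ≤ 1) (hκ : 0 ≤ κ)
    (ht0 : 0 < t0) (hT : t0 ≤ T) (hV : 0 < V) (hδ : δ ≤ 1 / 2) (hl : κ * clock t0 T = V)
    (heT : e * T ≤ 1 / 4) (hVT : T * (V / 2) ≤ 1 / 4) (h0 : 0 ≤ te) (hte : te ≤ T)
    (hρ : ‖g te + 1‖ = te) (hθ : |Complex.arg (g te + 1)| ≤ B) :
    ENNReal.ofReal V ≤ volume (wins2 e κ t0 B V δ g) := by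
  have h4 := polar (g te)
  rw [hρ] at h4
  set θ := Complex.arg (g te + 1)
  obtain ⟨a1, a2⟩ := abs_le.1 hθ
  have c1 : 0 ≤ κ * clock t0 te := mul_nonneg hκ (clock_nonneg ht0 te)
  have c2 : κ * clock t0 te ≤ V := hl ▸ mul_le_mul_of_nonneg_left (clock_mono ht0 hte) hκ
  refine le_trans ?_ (measure_mono (s := Icc (B + 2 * V + θ - κ * clock t0 te - V / 2)
    (B + 2 * V + θ - κ * clock t0 te + V / 2)) fun φ hφ =>
    ⟨⟨by linarith [hφ.1], by linarith [hφ.2]⟩, te, h0, ?_⟩)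
  · rw [Real.volume_Icc]
    exact ENNReal.ofReal_le_ofReal (by linarith)
  · rw [fam2, if_pos (by linarith [hφ.2]), h4, spath, dist_add_left]
    have hm0 : 0 ≤ max te t0 := h0.trans (le_max_left _ _)
    have hm1 : max te t0 ≤ T := max_le hte hT
    have hm2 : te ≤ max te t0 := le_max_left _ _
    have hm3 : e * max te t0 ≤ e * T := mul_le_mul_of_nonneg_left hm1 he
    refine close_Cap (T := T) (A := V / 2) (le_min h0 (mul_nonneg hm0 (by linarith)))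
      (min_le_left _ _) hte ?_ (abs_le.2 ⟨by linarith [hφ.1], by linarith [hφ.2]⟩) hVT hδ
    rcases min_choice te (max te t0 * (1 - e)) with h1 | h1 <;> rw [h1] <;> nlinarith

theorem sweep2 {e κ t0 T B V δ ε : ℝ} {g : ℝ → ℂ} (hε : 0 < ε) (he : 0 ≤ e) (ht0 : 0 < t0)
    (hT : t0 ≤ T) (hV : 0 < V) (hδ0 : 0 ≤ δ) (hδ : δ ≤ (ε - e) * t0)
    (hl : κ * clock t0 T = V)
    (hc : Continuous g) (hn : ∀ t, 0 ≤ t → ‖g t‖ ≤ (1 - ε) * t)
    (hge : ∀ t, 0 ≤ t → t ≤ T → t ≤ ‖g t + 1‖) (hθ : |Complex.arg (g t0 + 1)| ≤ B)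
    (hm : |Complex.arg (g T + 1)| ≤ B) :
    ENNReal.ofReal (V + (Complex.arg (g t0 + 1) - Complex.arg (g T + 1))) ≤
      volume (wins2 e κ t0 B V δ g) := by
  obtain ⟨a1, a2⟩ := abs_le.1 hθ
  obtain ⟨a3, a4⟩ := abs_le.1 hm
  have hck := continuous_clock ht0
  have hξ : ContinuousOn (fun t => Complex.arg (g t + 1) - κ * clock t0 t) (Icc t0 T) :=
    (arg_cont hε hc hn ht0.le hge).sub (by fun_prop)
  have h3 : 0 ≤ ε - e := nonneg_of_mul_nonneg_left (hδ0.trans hδ) ht0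
  refine le_trans ?_ (measure_mono (s := Icc (B + 2 * V + Complex.arg (g T + 1) - V)
    (B + 2 * V + Complex.arg (g t0 + 1))) fun φ hφ => ⟨⟨by linarith [hφ.1], by linarith [hφ.2]⟩, ?_⟩)
  · rw [Real.volume_Icc]
    exact ENNReal.ofReal_le_ofReal (by linarith)
  obtain ⟨t, ht, hz⟩ := intermediate_value_Icc' hT hξ
    (show φ - (B + 2 * V) ∈ Icc _ _ from ⟨by simp only [hl]; linarith [hφ.1],
      by simp only [clock_of_le ht0 le_rfl]; linarith [hφ.2]⟩)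
  have t0' : 0 ≤ t := ht0.le.trans ht.1
  have hz' : Complex.arg (g t + 1) = φ - (B + 2 * V) + κ * clock t0 t + 0 := by
    simp only at hz
    linarith
  have h4 := polar (g t)
  rw [hz'] at h4
  refine ⟨t, t0', ?_⟩
  rw [fam2, if_pos (by linarith [hφ.2]), spath]
  refine (congrArg (dist _) h4).le.trans ?_
  have h1 := hge t t0' ht.2
  have h2 : ‖g t + 1‖ ≤ (1 - ε) * t + 1 := norm_add_le_of_le (hn t t0') norm_one.le
  have h5 : 0 ≤ e * t := mul_nonneg he t0'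
  have h6 : (ε - e) * t0 ≤ (ε - e) * t := mul_le_mul_of_nonneg_left ht.1 h3
  rw [dist_add_left, dist_mul_cis, Complex.dist_eq, ← Complex.ofReal_sub, Complex.norm_real,
    Real.norm_eq_abs, max_eq_left ht.1, min_eq_right (by nlinarith), abs_sub_comm,
    abs_of_nonneg (by nlinarith)]
  nlinarith

theorem low_core2 {e κ t0 T B V δ ε : ℝ} (hε : 0 < ε) (hε1 : ε < 1) (he : 0 ≤ e) (he1 : e ≤ 1)
    (hκ0 : 0 ≤ κ) (hκ : (1 - e) ^ 2 + κ ^ 2 ≤ 1) (ht0 : 0 < t0) (hT : t0 ≤ T) (hB : 0 ≤ B)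
    (hV : 0 < V) (hδ0 : 0 ≤ δ) (hδ1 : δ ≤ 1 / 2) (hδ : δ ≤ (ε - e) * t0)
    (hcos : Real.cos B ≤ 1 - δ) (hl : κ * clock t0 T = V) (heT : e * T ≤ 1 / 4)
    (hVT : T * (V / 2) ≤ 1 / 4) :
    ENNReal.ofReal (1 / (2 * (2 * B + 6 * V)) * (2 * V)) ≤ value (1 - δ) (1 - ε) (-1) := by
  refine bridge_sum (1 - δ) (1 - ε) _ (2 * V) (fam2 e κ t0 B V) (by linarith) (by positivity) (fun φ => ?_)
    (fun φ s t hs ht => ?_) (fun t => ?_) fun h h0 hL => ?_
  · unfold fam2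
    split_ifs
    · exact (spiral_lip he he1 hκ ht0 _).1
    · simp
  · unfold fam2
    split_ifs
    · exact (spiral_lip he he1 hκ ht0 _).2 s t hs ht
    · rw [dist_add_left, dist_mul_cis, Complex.dist_eq, ← Complex.ofReal_sub, Complex.norm_real,
        Real.norm_eq_abs]
  · unfold fam2 spath
    exact Measurable.ite measurableSet_Iio (Continuous.measurable (by fun_prop)) measurable_const
  have hc : Continuous h := by
    refine (LipschitzWith.of_dist_le_mul (K := ⟨1 - ε, by linarith⟩) fun s t => ?_).continuous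
    rw [Real.dist_eq]
    exact hL s t
  have hn : ∀ t, 0 ≤ t → ‖h t‖ ≤ (1 - ε) * t := fun t ht => by
    have := hL t 0
    rwa [h0, dist_zero_right, sub_zero, abs_of_nonneg ht] at this
  obtain ⟨te, hte0, hteT, hge, hend⟩ := stop_Cap (f := fun t => ‖h t + 1‖ - t) (T := T)
    (by fun_prop) (by simp [h0]) (ht0.le.trans hT)
  have hge' : ∀ t, 0 ≤ t → t ≤ te → t ≤ ‖h t + 1‖ := fun t h1 h2 => by
    have := hge t h1 h2
    linarith
  have hcj : ∀ t, (starRingEnd ℂ) (h t) + 1 = (starRingEnd ℂ) (h t + 1) := fun t => by simp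
  have hc2 : Continuous fun t => (starRingEnd ℂ) (h t) := Complex.continuous_conj.comp hc
  have hn2 : ∀ t, 0 ≤ t → ‖(starRingEnd ℂ) (h t)‖ ≤ (1 - ε) * t := fun t ht => by
    simpa using hn t ht
  have hge2 : ∀ t, 0 ≤ t → t ≤ te → t ≤ ‖(starRingEnd ℂ) (h t) + 1‖ := fun t h1 h2 => by
    rw [hcj, Complex.norm_conj]
    exact hge' t h1 h2
  have harg : ∀ t, 0 ≤ t → t ≤ te →
      Complex.arg ((starRingEnd ℂ) (h t) + 1) = -Complex.arg (h t + 1) := fun t h1 h2 => by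
    rw [hcj, Complex.arg_conj, if_neg (Complex.slitPlane_arg_ne_pi
      (slit_Cap ((hn t h1).trans (by nlinarith)) (hge' t h1 h2)))]
  by_cases c1 : ∃ t, 0 ≤ t ∧ t ≤ te ∧ B ≤ Complex.arg (h t + 1)
  · obtain ⟨t, a1, a2, a3⟩ := c1
    exact le_add_right (barrier2 hε hB hV hcos hc h0 hn hge' a1 a2 a3)
  by_cases c2 : ∃ t, 0 ≤ t ∧ t ≤ te ∧ B ≤ -Complex.arg (h t + 1)
  · obtain ⟨t, a1, a2, a3⟩ := c2
    exact le_add_left (barrier2 (g := fun t => (starRingEnd ℂ) (h t)) hε hB hV hcos hc2 (by simp [h0])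
      hn2 hge2 a1 a2 (by rwa [harg t a1 a2]))
  have c3 : ∀ t, 0 ≤ t → t ≤ te → |Complex.arg (h t + 1)| ≤ B := fun t a1 a2 =>
    abs_le.2 ⟨by linarith [not_le.1 fun a3 => c2 ⟨t, a1, a2, a3⟩],
      (not_le.1 fun a3 => c1 ⟨t, a1, a2, a3⟩).le⟩
  have c4 : ∀ t, 0 ≤ t → t ≤ te → |Complex.arg ((starRingEnd ℂ) (h t) + 1)| ≤ B :=
    fun t a1 a2 => by
      rw [harg t a1 a2, abs_neg]
      exact c3 t a1 a2
  rcases hend with rfl | hend
  · refine le_trans ?_ (add_le_add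
      (sweep2 hε he ht0 hT hV hδ0 hδ hl hc hn hge' (c3 t0 ht0.le hT) (c3 te hte0 le_rfl))
      (sweep2 (g := fun t => (starRingEnd ℂ) (h t)) hε he ht0 hT hV hδ0 hδ hl hc2 hn2 hge2
        (c4 t0 ht0.le hT) (c4 te hte0 le_rfl)))
    refine le_trans (ENNReal.ofReal_le_ofReal ?_) ENNReal.ofReal_add_le
    rw [harg t0 ht0.le hT, harg te hte0 le_rfl]
    linarith
  · have hρ : ‖h te + 1‖ = te := by linarith
    refine le_trans ?_ (add_le_add
      (window2 he he1 hκ0 ht0 hT hV hδ1 hl heT hVT hte0 hteT hρ (c3 te hte0 le_rfl))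
      (window2 (g := fun t => (starRingEnd ℂ) (h t)) he he1 hκ0 ht0 hT hV hδ1 hl heT hVT hte0 hteT
        (by rw [hcj, Complex.norm_conj, hρ]) (c4 te hte0 le_rfl)))
    exact le_trans (ENNReal.ofReal_le_ofReal (by linarith)) ENNReal.ofReal_add_le

end Pool.Agent.MP_66a317_pr.All
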