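import Pool.Agent.Mg.F66a317.Gad8f3f

open Set Filter

namespace Pool.Agent.MP_66a317_pr.All

open Stair

theorem log_max_lip {c u v : ℝ} (hc : 0 < c) (h : v ≤ u) :
    Real.log (max c u) ≤ Real.log (max c v) + (u - v) / c := by
  have h1 : c ≤ max c v := le_max_left _ _
  have h2 : 0 < max c v := hc.trans_le h1
  have h3 : 0 < max c u := lt_max_of_lt_left hc
  have h4 : max c u - max c v ≤ u - v := by
    have := max_le (show c ≤ max c v + (u - v) by linarith)
      (show u ≤ max c v + (u - v) by linarith [le_max_right c v])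
    linarith
  have h5 := Real.log_le_sub_one_of_pos (div_pos h3 h2)
  rw [Real.log_div h3.ne' h2.ne', div_sub_one h2.ne'] at h5
  have h6 : (max c u - max c v) / max c v ≤ (u - v) / c :=
    div_le_div₀ (by linarith) h4 hc h1
  linarith

theorem pl_lip {u v : ℝ} (hv : 0 ≤ v) (h : v ≤ u) : Real.posLog u ≤ Real.posLog v + (u - v) := by
  rw [Real.posLog_eq_log_max_one hv, Real.posLog_eq_log_max_one (hv.trans h)]
  simpa using log_max_lip one_pos h

theorem pp_eq {u : ℝ} (hu : 0 ≤ u) :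
    Real.posLog (Real.posLog u) = Real.posLog (Real.log (max 2 u)) := by
  rcases le_total u 2 with h | h
  · rw [max_eq_left h, posLog_zero_LevFacts Real.posLog_nonneg
      (by linarith [posLog_le_half_LevFacts hu]), posLog_zero_LevFacts
      (by linarith [Real.log_two_gt_d9]) (by linarith [Real.log_two_lt_d9])]
  · rw [max_eq_right h, posLog_eq_LevFacts (x := u) (by linarith)]

theorem pp_lip {u v : ℝ} (hv : 0 ≤ v) (h : v ≤ u) :
    Real.posLog (Real.posLog u) ≤ Real.posLog (Real.posLog v) + (u - v) / 2 := by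
  rw [pp_eq hv, pp_eq (hv.trans h)]
  have h1 := log_max_lip two_pos h
  have h2 := pl_lip (Real.log_nonneg (one_le_two.trans (le_max_left 2 v)))
    (Real.log_le_log (lt_max_of_lt_left two_pos) (max_le_max_left 2 h))
  linarith

theorem lev_cmp {L L' γ : ℝ} (hγ : 0 ≤ γ) (hγ1 : γ ≤ 1 / 2) (h0 : 0 ≤ L') (h1 : L' ≤ L)
    (h2 : (1 - γ) * L ≤ L') (k : ℕ) :
    lev L' (k + 1) ≤ lev L (k + 1) ∧ lev L (k + 1) ≤ lev L' (k + 1) + 2 * γ * (1 / 2) ^ k := by
  induction k with
  | zero =>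
    have a1 : Real.posLog (L' / 2) ≤ Real.posLog (L / 2) :=
      Real.posLog_le_posLog (by linarith) (by linarith)
    have hu : 0 < 1 - γ := by linarith
    have a2 : Real.posLog (L / 2) ≤ Real.posLog (1 / (1 - γ) * (L' / 2)) := by
      refine Real.posLog_le_posLog (by linarith) ?_
      rw [one_div, inv_mul_eq_div, le_div_iff₀ hu]
      linarith
    have a3 := Real.posLog_mul (x := 1 / (1 - γ)) (y := L' / 2)
    have a4 : 1 / (1 - γ) ≤ 1 + 2 * γ := by
      rw [div_le_iff₀ hu]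
      nlinarith
    have a5 := pl_lip zero_le_one (show 1 ≤ 1 / (1 - γ) from (one_le_div hu).2 (by linarith))
    rw [Real.posLog_one] at a5
    have a6 := pl_lip Real.posLog_nonneg a1
    refine ⟨Real.posLog_le_posLog Real.posLog_nonneg a1, ?_⟩
    simp only [lev, pow_zero]
    linarith
  | succ k ih =>
    have a0 : 0 ≤ lev L' (k + 1) := Real.posLog_nonneg
    have a1 := pp_lip a0 ih.1
    refine ⟨Real.posLog_le_posLog Real.posLog_nonneg (Real.posLog_le_posLog a0 ih.1), ?_⟩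
    rw [lev, lev.eq_2 L' (k + 1), pow_succ]
    linarith [ih.2]

theorem prod_diff (f g : ℕ → ℝ) (hf : ∀ k, 0 ≤ f k ∧ f k ≤ 1) (hg : ∀ k, 0 ≤ g k ∧ g k ≤ 1)
    (m : ℕ) : |∏ k ∈ Finset.range m, f k - ∏ k ∈ Finset.range m, g k| ≤
      ∑ k ∈ Finset.range m, |f k - g k| := by
  induction m with
  | zero => simp
  | succ m ih =>
    rw [Finset.prod_range_succ, Finset.prod_range_succ, Finset.sum_range_succ]
    have a1 : 0 ≤ ∏ k ∈ Finset.range m, g k := Finset.prod_nonneg fun k _ => (hg k).1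
    have a2 : ∏ k ∈ Finset.range m, g k ≤ 1 :=
      Finset.prod_le_one (fun k _ => (hg k).1) fun k _ => (hg k).2
    set F := ∏ k ∈ Finset.range m, f k
    set G := ∏ k ∈ Finset.range m, g k
    rw [show F * f m - G * g m = (F - G) * f m + G * (f m - g m) by ring]
    refine (abs_add_le _ _).trans ?_
    rw [abs_mul, abs_mul, abs_of_nonneg (hf m).1, abs_of_nonneg a1]
    exact add_le_add ((mul_le_of_le_one_right (abs_nonneg _) (hf m).2).trans ih)
      (mul_le_of_le_one_left (abs_nonneg _) a2)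

theorem stair_cmp {L L' γ s : ℝ} (hγ : 0 ≤ γ) (hγ1 : γ ≤ 1 / 2) (h0 : 0 ≤ L') (h1 : L' ≤ L)
    (h2 : (1 - γ) * L ≤ L') (hs : 0 ≤ s) (hs1 : s ≤ 1) :
    |∏' k : ℕ, (1 - min 1 (lev L k * s) / 2) - ∏' k : ℕ, (1 - min 1 (lev L' k * s) / 2)| ≤
      3 * γ := by
  obtain ⟨n, hn⟩ := lev_stmt.2.2.2.1 L
  obtain ⟨n', hn'⟩ := lev_stmt.2.2.2.1 L'
  have key : ∀ M : ℝ, 0 ≤ M → ∀ k, 0 ≤ 1 - min 1 (lev M k * s) / 2 ∧
      1 - min 1 (lev M k * s) / 2 ≤ 1 := fun M hM k => by
    have := le_min zero_le_one (mul_nonneg (lev_stmt.2.2.1 M k hM).1 hs)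
    constructor <;> linarith [min_le_left 1 (lev M k * s)]
  rw [tprod_eq_prod (s := Finset.range (n + n' + 1)) fun j hj => by
      rw [hn j (by simp at hj; omega)]; simp,
    tprod_eq_prod (s := Finset.range (n + n' + 1)) fun j hj => by
      rw [hn' j (by simp at hj; omega)]; simp]
  refine (prod_diff _ _ (key L (h0.trans h1)) (key L' h0) _).trans ?_
  rw [Finset.sum_range_succ']
  have a1 : ∑ k ∈ Finset.range (n + n'), |1 - min 1 (lev L (k + 1) * s) / 2 -
      (1 - min 1 (lev L' (k + 1) * s) / 2)| ≤ ∑ k ∈ Finset.range (n + n'), γ * (1 / 2) ^ k := by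
    refine Finset.sum_le_sum fun k _ => ?_
    obtain ⟨b1, b2⟩ := lev_cmp hγ hγ1 h0 h1 h2 k
    have b3 := abs_min_sub_min_le_max 1 (lev L (k + 1) * s) 1 (lev L' (k + 1) * s)
    have b4 : (lev L (k + 1) - lev L' (k + 1)) * s ≤ 2 * γ * (1 / 2) ^ k * 1 :=
      mul_le_mul (by linarith) hs1 hs (by positivity)
    rw [sub_self, abs_zero, max_eq_right (abs_nonneg _), ← sub_mul,
      abs_of_nonneg (mul_nonneg (sub_nonneg.2 b1) hs)] at b3
    obtain ⟨b5, b6⟩ := abs_le.1 b3
    rw [abs_le]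
    constructor <;> linarith
  rw [← Finset.mul_sum] at a1
  have a2 := mul_le_mul_of_nonneg_left (sum_geometric_two_le (n + n')) hγ
  have a3 : |1 - min 1 (lev L 0 * s) / 2 - (1 - min 1 (lev L' 0 * s) / 2)| ≤ γ := by
    simp only [lev]
    have b1 : L' / 2 * s ≤ L / 2 * s := by gcongr
    have b2 : (1 - γ) * L / 2 * s ≤ L' / 2 * s := by gcongr
    have b3 := min_le_min_left 1 b1
    have b4 : min 1 (L / 2 * s) ≤ min 1 (L' / 2 * s) + γ := by
      have c1 := min_le_left 1 (L / 2 * s)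
      have c2 := min_le_right 1 (L / 2 * s)
      rcases min_choice 1 (L' / 2 * s) with h | h <;> rw [h]
      · linarith
      · nlinarith [mul_le_mul_of_nonneg_left c1 hγ,
          mul_le_mul_of_nonneg_left c2 (show 0 ≤ 1 - γ by linarith)]
    rw [abs_le]
    constructor <;> linarith
  linarith

end Pool.Agent.MP_66a317_pr.All
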