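import Pool.Agent.MP_66a317_pr.All.Num
import Pool.Agent.Mg.F66a317.Gdcd1a3
import Pool.Agent.Mg.F66a317.G96c572

open MeasureTheory Set Filter
open scoped ENNReal

namespace Pool.Agent.MP_66a317_pr.All

open Fast

theorem min_le_mul_min {x y K : ℝ} (hK : 1 ≤ K) (h : x ≤ K * y) : min 1 x ≤ K * min 1 y := by
  rcases le_total 1 y with h1 | h1
  · rw [min_eq_left h1]
    linarith [min_le_left 1 x]
  · rw [min_eq_right h1]
    linarith [min_le_right 1 x]

theorem upper_ab {a b r w : ℝ} (ha : 0 < a) (hb : 0 < b) (hr : r = 1 - b ^ 2) (hw : w = 1 - a ^ 2)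
    (hr0 : 0 < r) (hw0 : 0 < w) : value r w (-1) ≤
      ENNReal.ofReal (8200 * (r / w ^ 2 * (a / b * Real.log (1 + a / b ^ 2)))) := by
  have ha1 : a ≤ 1 := by nlinarith
  have hb1 : b ≤ 1 := by nlinarith
  have hw1 : w < 1 := by nlinarith
  have hx : 0 < a / b ^ 2 := by positivity
  have hq : a / b ≤ a / b ^ 2 := div_le_div_of_nonneg_left ha.le (by positivity) (by nlinarith)
  have hq' : a ≤ a / b := by
    rw [le_div_iff₀ hb]
    nlinarith
  have hL : 0 < Real.log (1 + a / b ^ 2) := Real.log_pos (by linarith)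
  have hΨ : 0 < a / b * Real.log (1 + a / b ^ 2) := by positivity
  rcases le_total (1 / 2) (b ^ 2) with h1 | h1
  · refine (value_le_order (-1) hr0 hw0 hw1 (by simp; linarith)).trans
      (ENNReal.ofReal_le_ofReal ?_)
    have h2 : a / 2 ≤ Real.log (1 + a / b ^ 2) :=
      (half_le_log ha.le ha1).trans (Real.log_le_log (by linarith) (by linarith))
    calc 100 * (r * (1 - w) / (w ^ 2 * ‖(-1 : ℂ)‖)) = 200 * (r / w ^ 2 * (a * (a / 2))) := by
          rw [norm_neg, norm_one, show 1 - w = a ^ 2 by linarith]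
          field_simp
          ring
      _ ≤ _ := by gcongr; norm_num
  have h3 : 1 / 2 ≤ r / w ^ 2 := by
    rw [le_div_iff₀ (by positivity)]
    nlinarith
  have h4 : value r w (-1) ≤ ENNReal.ofReal (4100 * (a / b * Real.log (1 + a / b ^ 2))) := by
    rcases le_total (8 * a) b with h2 | h2
    · rw [hr, hw]
      exact up_mid ha hb h2 h1
    · refine (value_le_one' r hw0.le _).trans ?_
      rw [← ENNReal.ofReal_one]
      refine ENNReal.ofReal_le_ofReal ?_
      have h5 : 1 / 8 ≤ a / b := by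
        rw [le_div_iff₀ hb]
        linarith
      have h6 : 1 / 8 / 2 ≤ Real.log (1 + a / b ^ 2) :=
        (half_le_log (by norm_num) (by norm_num)).trans
          (Real.log_le_log (by norm_num) (by linarith))
      nlinarith [mul_le_mul h5 h6 (by norm_num) (by positivity)]
  exact h4.trans (ENNReal.ofReal_le_ofReal (by nlinarith))

theorem lower_ab : ∃ c : ℝ, 0 < c ∧ ∀ a b r w : ℝ, 0 < a → 0 < b → r = 1 - b ^ 2 →
    w = 1 - a ^ 2 → 0 < r → 0 < w →
    ENNReal.ofReal (c * min 1 (r / w ^ 2 * (a / b * Real.log (1 + a / b ^ 2)))) ≤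
      value r w (-1) := by
  obtain ⟨w0, hw0, hs⟩ := slow_hider 1 (1 / 2) (by norm_num)
  refine ⟨min 1 (w0 ^ 2) / 1000, by positivity, fun a b r w ha hb hr hw hr0 hwp => ?_⟩
  have ha1 : a < 1 := by nlinarith
  have hr1 : r ≤ 1 := by nlinarith
  have hw1 : w < 1 := by nlinarith
  have hx : 0 < a / b ^ 2 := by positivity
  have hL : 0 < Real.log (1 + a / b ^ 2) := Real.log_pos (by linarith)
  set Ψ := a / b * Real.log (1 + a / b ^ 2) with hΨdef
  have hΨ : 0 < Ψ := by positivity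
  have hm0 : 0 ≤ min 1 (r / w ^ 2 * Ψ) := le_min zero_le_one (by positivity)
  have hc1 := min_le_left 1 (w0 ^ 2)
  have hc2 := min_le_right 1 (w0 ^ 2)
  have hc0 : 0 < min 1 (w0 ^ 2) := by positivity
  rcases le_total (b ^ 2) (1 / 20) with h1 | h1
  · have h := low_small ha ha1 hb h1
    rw [← hr, ← hw, ← hΨdef] at h
    refine le_trans (ENNReal.ofReal_le_ofReal ?_) h
    have h2 : min 1 (r / w ^ 2 * Ψ) ≤ 4 * min 1 Ψ := by
      rcases le_total (1 / 2) w with h3 | h3
      · refine min_le_mul_min (by norm_num) (mul_le_mul_of_nonneg_right ?_ hΨ.le)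
        rw [div_le_iff₀ (by positivity)]
        nlinarith
      · have h4 : 1 / 2 ≤ a := by nlinarith
        have h5 : 1 ≤ a / b := by
          rw [le_div_iff₀ hb]
          nlinarith
        have h6 : 3 ≤ a / b ^ 2 := by
          rw [le_div_iff₀ (by positivity)]
          linarith
        have h7 : 1 ≤ Real.log (1 + a / b ^ 2) := by
          rw [Real.le_log_iff_exp_le (by linarith)]
          linarith [Real.exp_one_lt_d9]
        rw [min_eq_left (show 1 ≤ Ψ from one_le_mul_of_one_le_of_one_le h5 h7)]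
        linarith [min_le_left 1 (r / w ^ 2 * Ψ)]
    have h3 : min 1 Ψ / 216 ≤ Ψ / (192 + 24 * Ψ) := by
      rw [div_le_div_iff₀ (by norm_num) (by positivity)]
      nlinarith [min_le_right 1 Ψ, mul_le_mul_of_nonneg_right (min_le_left 1 Ψ) hΨ.le]
    nlinarith [mul_le_mul_of_nonneg_right hc1 hm0]
  have hb5 : 1 / 5 ≤ b := by nlinarith
  have hΨ1 : Ψ ≤ 100 * a ^ 2 := by
    have h2 : Real.log (1 + a / b ^ 2) ≤ 20 * a := by
      have h3 := Real.log_le_sub_one_of_pos (show 0 < 1 + a / b ^ 2 by linarith)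
      have h4 : a / b ^ 2 ≤ 20 * a := by
        rw [div_le_iff₀ (by positivity)]
        nlinarith
      linarith
    have h3 : a / b ≤ 5 * a := by
      rw [div_le_iff₀ hb]
      nlinarith
    calc Ψ ≤ 5 * a * (20 * a) := mul_le_mul h3 h2 hL.le (by positivity)
      _ = _ := by ring
  rcases le_or_gt w0 w with h2 | h2
  · have h := low_ray (ε := a ^ 2) hr0 hr1 (by positivity) (by nlinarith)
    rw [← hw] at h
    refine le_trans (ENNReal.ofReal_le_ofReal ?_) h
    have h3 : w0 ^ 2 ≤ w ^ 2 := by gcongr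
    calc _ ≤ w ^ 2 / 1000 * (r / w ^ 2 * (100 * a ^ 2)) := by
          refine mul_le_mul (by linarith) ((min_le_right _ _).trans ?_) hm0 (by positivity)
          gcongr
      _ = _ := by
          field_simp
          ring
  · have hr2 : 0 < min r (w ^ 2) := by positivity
    have h := (hs (min r (w ^ 2)) w (-1) hr2 hwp h2 (by simp)).1.trans
      (scale_stmt.2 _ _ w (-1) (min_le_left _ _))
    refine le_trans (ENNReal.ofReal_le_ofReal ?_) h
    have hpi := Real.pi_gt_three
    have hpi4 := Real.pi_lt_four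
    have e : (1 - 1 / 2) * (2 * min r (w ^ 2) / (Real.pi * w ^ 2 * ‖(-1 : ℂ)‖)) =
        min 1 (r / w ^ 2) / Real.pi := by
      rw [norm_neg, norm_one, min_comm 1, ← div_self (show w ^ 2 ≠ 0 by positivity),
        min_div_div_right (by positivity)]
      field_simp
      ring
    rw [e]
    have h3 : min 1 (r / w ^ 2 * Ψ) ≤ 100 * min 1 (r / w ^ 2) := by
      refine min_le_mul_min (by norm_num) ?_
      have : Ψ ≤ 100 := by nlinarith
      rw [mul_comm]
      gcongr
    have h4 : 0 < min 1 (r / w ^ 2) := by positivity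
    have h5 := min_le_left 1 (r / w ^ 2)
    set y := min 1 (r / w ^ 2) / Real.pi with hy
    have y0 : 0 < y := by positivity
    have y1 : y ≤ 1 := (div_le_one (by linarith)).2 (by linarith)
    have y2 : min 1 (r / w ^ 2) ≤ 4 * y := by
      rw [hy, ← mul_div_assoc, le_div_iff₀ (by linarith)]
      nlinarith
    have y3 : Real.exp (-y) ≤ 1 - y / 2 := by
      rw [Real.exp_neg, inv_le_iff_one_le_mul₀ (Real.exp_pos y)]
      nlinarith [Real.add_one_le_exp y]
    nlinarith [mul_le_mul_of_nonneg_right hc1 hm0]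

theorem all_order : ∃ c C : ℝ, 0 < c ∧ 0 < C ∧ ∀ (r w : ℝ) (A : ℂ),
    0 < r → r < ‖A‖ → 0 < w → w < 1 →
      c * min 1 (r / (w ^ 2 * ‖A‖) * (√((1 - w) / (1 - r / ‖A‖)) *
          Real.log (1 + √(1 - w) / (1 - r / ‖A‖)))) ≤ (value r w A).toReal ∧
        (value r w A).toReal ≤ C * min 1 (r / (w ^ 2 * ‖A‖) * (√((1 - w) / (1 - r / ‖A‖)) *
          Real.log (1 + √(1 - w) / (1 - r / ‖A‖)))) := by
  obtain ⟨c, hc, hl⟩ := lower_ab
  refine ⟨c, 8200, hc, by norm_num, fun r w A hr hA hw hw1 => ?_⟩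
  have hR : 0 < ‖A‖ := hr.trans hA
  have hδ : 0 < 1 - r / ‖A‖ := sub_pos.2 ((div_lt_one hR).2 hA)
  have hε : 0 < 1 - w := by linarith
  have ea := Real.sq_sqrt hε.le
  have eb := Real.sq_sqrt hδ.le
  have ha := Real.sqrt_pos.2 hε
  have hb := Real.sqrt_pos.2 hδ
  have h1 := hl _ _ (r / ‖A‖) w ha hb (by linarith) (by linarith) (by positivity) hw
  have h2 := upper_ab ha hb (r := r / ‖A‖) (w := w) (by linarith) (by linarith) (by positivity) hw
  have h3 := value_le_one' (r / ‖A‖) hw.le (-1)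
  rw [eb, ← Real.sqrt_div hε.le, div_div, mul_comm ‖A‖] at h1 h2
  rw [scale_stmt.1 r w A (norm_pos_iff.1 hR)]
  have h4 := ne_top_of_le_ne_top ENNReal.one_ne_top h3
  refine ⟨(ENNReal.ofReal_le_iff_le_toReal h4).1 h1, ?_⟩
  have hL : 0 ≤ Real.log (1 + √(1 - w) / (1 - r / ‖A‖)) :=
    Real.log_nonneg (le_add_of_nonneg_right (by positivity))
  have h5 := ENNReal.toReal_le_of_le_ofReal (by positivity) h2
  have h6 : (value (r / ‖A‖) w (-1)).toReal ≤ 1 := ENNReal.toReal_le_of_le_ofReal zero_le_one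
    (by simpa using h3)
  rw [mul_min_of_nonneg _ _ (by norm_num)]
  exact le_min (by linarith) h5

theorem all_ratio : ∃ c C : ℝ, 0 < c ∧ ∀ (r w : ℝ) (A : ℂ), 0 < r → r < ‖A‖ → 0 < w → w < 1 →
    (value r w A).toReal / min 1 (r / (w ^ 2 * ‖A‖) * √((1 - w) / (1 - r / ‖A‖)) *
      Real.log (1 + √(1 - w) / (1 - r / ‖A‖))) ∈ Icc c C := by
  obtain ⟨c, C, hc, -, h⟩ := all_order
  refine ⟨c, C, hc, fun r w A hr hA hw hw1 => ?_⟩
  have hR : 0 < ‖A‖ := hr.trans hA
  have hδ : 0 < 1 - r / ‖A‖ := sub_pos.2 ((div_lt_one hR).2 hA)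
  have hε : 0 < 1 - w := by linarith
  have hL : 0 < Real.log (1 + √(1 - w) / (1 - r / ‖A‖)) :=
    Real.log_pos (lt_add_of_pos_right _ (by positivity))
  rw [mul_assoc, mem_Icc, le_div_iff₀ (by positivity), div_le_iff₀ (by positivity)]
  exact h r w A hr hA hw hw1

end Pool.Agent.MP_66a317_pr.All
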