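import Pool.Agent.MP_66a317_pr.All.Cap
import Pool.Agent.MP_66a317_pr.All.UpCore
import Pool.Agent.Mg.F66a317.Gc08609
import Pool.Agent.Mg.F66a317.Gdccaae

open MeasureTheory Set Filter
open scoped ENNReal

namespace Pool.Agent.MP_66a317_pr.All

open Fast

theorem half_le_log {x : ℝ} (h0 : 0 ≤ x) (h1 : x ≤ 1) : x / 2 ≤ Real.log (1 + x) := by
  have h := Real.one_sub_inv_le_log_of_pos (show 0 < 1 + x by linarith)
  refine le_trans ?_ h
  rw [le_sub_comm, inv_le_iff_one_le_mul₀ (by linarith)]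
  nlinarith

theorem low_small {a b : ℝ} (ha : 0 < a) (ha1 : a < 1) (hb : 0 < b) (hb1 : b ^ 2 ≤ 1 / 20) :
    ENNReal.ofReal (a / b * Real.log (1 + a / b ^ 2) /
      (192 + 24 * (a / b * Real.log (1 + a / b ^ 2)))) ≤ value (1 - b ^ 2) (1 - a ^ 2) (-1) := by
  have hx : 0 < a / b ^ 2 := by positivity
  set s := √(1 + a / b ^ 2) with hs
  have hs2 : s ^ 2 = 1 + a / b ^ 2 := Real.sq_sqrt (by positivity)
  have hs1 : 1 < s := Real.lt_sqrt_of_sq_lt (by linarith)
  have hL : 0 < Real.log s := Real.log_pos hs1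
  have hL1 : Real.log s ≤ s - 1 := Real.log_le_sub_one_of_pos (by linarith)
  have hlog : Real.log (1 + a / b ^ 2) = 2 * Real.log s := by
    rw [← hs2, Real.log_pow]
    norm_num
  have ht0 : 0 < 2 * b ^ 2 / a ^ 2 := by positivity
  have hb2 : b ≤ 1 / 4 := by nlinarith
  have e1 : b ^ 2 * (s ^ 2 - 1) = a := by
    rw [hs2]
    field_simp
    ring
  have h := low_core (e := a ^ 2 / 2) (κ := a / 2) (t0 := 2 * b ^ 2 / a ^ 2)
    (T := 2 * b ^ 2 / a ^ 2 * s) (B := 3 * b) (V := a * Real.log s / 4) (δ := b ^ 2) (ε := a ^ 2)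
    (by positivity) (by nlinarith) (by positivity) (by nlinarith) (by positivity)
    (by nlinarith [mul_pos (pow_pos ha 2) (show 0 < 1 - a ^ 2 by nlinarith)]) ht0
    (le_mul_of_one_le_right ht0.le hs1.le) (by positivity) (by positivity) (by positivity)
    (by linarith) (le_of_eq (by field_simp; ring))
    (by
      have := cos_Near (x := 3 * b) (by rw [abs_of_pos (by positivity)]; linarith)
      nlinarith)
    (by
      rw [clock_of_ge (le_mul_of_one_le_right ht0.le hs1.le), mul_div_cancel_left₀ _ ht0.ne']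
      ring)
    (by
      have e2 : a ^ 2 / 2 * (2 * b ^ 2 / a ^ 2 * s) = b ^ 2 * s := by field_simp
      rw [e2]
      refine le_of_sq_le_sq ?_ (by norm_num)
      have e3 : (b ^ 2 * s) ^ 2 = b ^ 2 * (a + b ^ 2) := by linear_combination b ^ 2 * e1
      rw [e3]
      calc b ^ 2 * (a + b ^ 2) ≤ 1 / 20 * (1 + 1 / 20) := by gcongr
        _ ≤ _ := by norm_num)
    (by
      have e2 : 2 * b ^ 2 / a ^ 2 * s * (a * Real.log s / 4 / 2) =
          b ^ 2 * (s * Real.log s) / (4 * a) := by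
        field_simp
      rw [e2, div_le_iff₀ (by positivity)]
      have e3 : s * Real.log s ≤ s ^ 2 - 1 := by nlinarith
      have e4 : b ^ 2 * (s * Real.log s) ≤ b ^ 2 * (s ^ 2 - 1) := by gcongr
      linarith)
  refine le_trans (ENNReal.ofReal_le_ofReal (le_of_eq ?_)) h
  rw [hlog]
  field_simp
  ring

theorem unseen {σ : ℝ → ℂ} {a b ω t : ℝ} (ha : 0 < a) (h0 : σ 0 = -1)
    (hσ : ∀ s t, dist (σ s) (σ t) ≤ |s - t|) (hω : ω ∈ Icc (-(b / 4)) (b / 4)) (ht : 0 ≤ t)
    (hd : dist (σ t) ((((1 - a ^ 2) * t : ℝ) : ℂ) * cis ω) < 1 - b ^ 2 / 2) :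
    b ^ 2 / (4 * a ^ 2) < t := by
  have b1 := proj_UpFanCore (σ t) ((1 - a ^ 2) * t) ω
  have b2 := front_UpFanCore h0 hσ (abs_le.2 hω) ht
  rw [div_lt_iff₀ (by positivity)]
  nlinarith [sq_nonneg b]

theorem up_mid {a b : ℝ} (ha : 0 < a) (hb : 0 < b) (hab : 8 * a ≤ b) (hb1 : b ^ 2 ≤ 1 / 2) :
    value (1 - b ^ 2) (1 - a ^ 2) (-1) ≤
      ENNReal.ofReal (4100 * (a / b * Real.log (1 + a / b ^ 2))) := by
  have hb2 : b ≤ 1 := by nlinarith
  have hx : 0 < a / b ^ 2 := by positivity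
  have hq : 0 < a / b := by positivity
  have h64 : 64 * a ^ 2 ≤ b ^ 2 := by nlinarith
  have h16 : 16 ≤ b ^ 2 / (4 * a ^ 2) := by
    rw [le_div_iff₀ (by positivity)]
    linarith
  rcases le_or_gt (a / b ^ 2) 1 with h1 | h1
  · have h := up_core (r := 1 - b ^ 2) (r' := 1 - b ^ 2 / 2) (w := 1 - a ^ 2)
      (T := b ^ 2 / (4 * a ^ 2)) (Φ := b / 4) (F := 0) (by nlinarith) (by linarith) (by nlinarith)
      (by linarith) (by nlinarith) (by linarith) (by positivity) (by linarith) le_rfl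
      fun σ h0 hσ => by
        refine le_trans (measure_mono (t := ∅) ?_) (by simp)
        rintro ω ⟨hω, t, t0, t1, t2⟩
        exact absurd (unseen ha h0 hσ hω t0 t2) (not_lt.2 t1)
    refine h.trans (ENNReal.ofReal_le_ofReal ?_)
    have h2 := half_le_log hx.le h1
    calc 0 / (b / 4) + 120 / (b / 4 * (b ^ 2 / (4 * a ^ 2))) = 3840 * (a / b * (a / b ^ 2 / 2)) := by
          field_simp
          ring
      _ ≤ 4100 * (a / b * Real.log (1 + a / b ^ 2)) := by gcongr; norm_num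
  obtain ⟨n, hn1, hn2⟩ := exists_nat_pow_near h1.le (show (1 : ℝ) < 2 by norm_num)
  have hN : (1 : ℝ) ≤ ((n + 1 : ℕ) : ℝ) := by exact_mod_cast Nat.succ_pos n
  have hp : (1 : ℝ) ≤ 2 ^ (n + 1) := one_le_pow₀ (by norm_num)
  have hD : a ^ 2 / b ≤ a / 8 := by
    rw [div_le_div_iff₀ hb (by norm_num)]
    nlinarith
  have hD0 : 0 < a ^ 2 / b := by positivity
  have h := up_core (r := 1 - b ^ 2) (r' := 1 - b ^ 2 / 2) (w := 1 - a ^ 2)
    (T := b ^ 2 / (4 * a ^ 2) * 2 ^ (n + 1)) (Φ := b / 4) (F := 14 * ((n + 1 : ℕ) : ℝ) * a)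
    (by nlinarith) (by linarith) (by nlinarith) (by linarith) (by nlinarith) (by nlinarith)
    (by positivity) (by linarith) (by positivity) fun σ h0 hσ => by
      have key := fan_stmt fanLoc_stmt σ (1 - b ^ 2 / 2) (a ^ 2) 0 (b ^ 2 / (4 * a ^ 2)) 2 (1 / 2)
        (b / 4) (6 * (a ^ 2 / b)) (n + 1) (Icc (-(b / 4)) (b / 4)) hσ (by linarith) (by nlinarith)
        (by positivity) le_rfl (by positivity) (by norm_num) le_rfl
        (by linarith [one_div_le_one_div_of_le (by norm_num) h16]) (by positivity)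
        (by
          have e : 8 * (0 / (b ^ 2 / (4 * a ^ 2)) ^ 2 + a ^ 2 / (b ^ 2 / (4 * a ^ 2))) =
              32 * (a ^ 2 / b) ^ 2 := by
            field_simp
            ring
          rw [e]
          nlinarith [sq_nonneg (a ^ 2 / b)])
        (by
          have a1 : a ≤ 1 / 8 := by linarith
          have a2 : 2 * (b / 4) + 2 * (6 * (a ^ 2 / b)) ≤ 11 / 16 * b := by linarith
          calc _ ≤ (11 / 16 * b) ^ 2 := pow_le_pow_left₀ (by positivity) a2 2
            _ ≤ _ := by nlinarith)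
        (Nat.succ_pos n) (fun ω hω => abs_le.2 hω) fun ω hω u hu =>
          (front_UpFanCore h0 hσ (abs_le.2 hω) (by linarith)).trans (by nlinarith)
      rw [mul_zero, zero_div, zero_add, Real.div_sqrt] at key
      refine (measure_mono ?_).trans (key.trans (ENNReal.ofReal_le_ofReal ?_))
      · rintro ω ⟨hω, t, t0, t1, t2⟩
        exact ⟨hω, t, (unseen ha h0 hσ hω t0 t2).le, t1, t2⟩
      · have c1 : √(2 * a ^ 2) ≤ 3 / 2 * a := Real.sqrt_le_iff.2 ⟨by positivity, by nlinarith⟩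
        have c0 := Real.sqrt_nonneg (2 * a ^ 2)
        have c2 := mul_le_mul_of_nonneg_left c1 (zero_le_one.trans hN)
        have c3 := mul_le_mul_of_nonneg_left hD (zero_le_one.trans hN)
        have c4 := mul_le_mul_of_nonneg_right hN ha.le
        norm_num at c2 c3 c4 ⊢
        nlinarith
  refine h.trans (ENNReal.ofReal_le_ofReal ?_)
  have l2 := Real.log_two_gt_d9
  have l3 : Real.log 2 ≤ Real.log (1 + a / b ^ 2) := Real.log_le_log (by norm_num) (by linarith)
  have l4 : n * Real.log 2 ≤ Real.log (1 + a / b ^ 2) := by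
    rw [← Real.log_pow]
    exact Real.log_le_log (by positivity) (by linarith)
  have l5 : ((n + 1 : ℕ) : ℝ) ≤ 4 * Real.log (1 + a / b ^ 2) := by
    push_cast
    nlinarith [(Nat.cast_nonneg n : (0 : ℝ) ≤ n)]
  have l6 : a / b ^ 2 / 2 ^ (n + 1) ≤ 2 * Real.log (1 + a / b ^ 2) :=
    ((div_le_one (by positivity)).2 hn2.le).trans (by linarith)
  calc _ = a / b * (56 * ((n + 1 : ℕ) : ℝ) + 1920 * (a / b ^ 2 / 2 ^ (n + 1))) := by
        field_simp
        ring
    _ ≤ a / b * (56 * (4 * Real.log (1 + a / b ^ 2)) + 1920 * (2 * Real.log (1 + a / b ^ 2))) := by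
        gcongr
    _ ≤ _ := by nlinarith [mul_pos hq (show 0 < Real.log (1 + a / b ^ 2) by linarith)]

end Pool.Agent.MP_66a317_pr.All
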