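import Pool.Agent.Mg.F66a317.Gdcd1a3

namespace Pool.Agent.Results.MP_66a317_pr.OrderBound

open Pool.Agent.MP_66a317_pr

theorem result (r w : ℝ) (A : ℂ) (hr : 0 < r) (hw0 : 0 < w) (hw1 : w < 1) (hA : 2 * r ≤ ‖A‖) :
    value r w A ≤ ENNReal.ofReal (100 * (r * (1 - w) / (w ^ 2 * ‖A‖))) :=
  value_le_order A hr hw0 hw1 hA

end Pool.Agent.Results.MP_66a317_pr.OrderBound
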