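import Pool.Agent.MP_66a317_pr.All.RelLow
import Pool.Agent.MP_66a317_pr.All.Cmp
import Pool.Agent.Mg.F66a317.G66119a

open MeasureTheory Set Filter
open scoped ENNReal

namespace Pool.Agent.MP_66a317_pr.All

open Fast Stair

theorem value_anti (r : ℝ) {w w' : ℝ} (h : w ≤ w') (A : ℂ) : value r w' A ≤ value r w A :=
  iSup_mono fun _ => le_iInf fun g => iInf_le_of_le ⟨g.1, g.2.1, fun s t =>
    (g.2.2 s t).trans (mul_le_mul_of_nonneg_right h dist_nonneg)⟩ le_rfl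

theorem rel_ab {γ : ℝ} (hγ : 0 < γ) (hγ1 : γ ≤ 1 / 10) : ∃ l0 : ℝ, ∀ a b : ℝ, 0 < a → a < 1 →
    0 < b → b < 1 → l0 ≤ Real.log (a / b ^ 2) →
    |(value (1 - b ^ 2) (1 - a ^ 2) (-1)).toReal / (1 - ∏' k : ℕ,
      (1 - min 1 (lev (2 * Real.log (a / b ^ 2)) k * (a / b)) / 2)) - 1| ≤ 30 * γ := by
  have g4 : 0 < γ ^ 4 := by positivity
  have g3 : 0 < γ ^ 3 := by positivity
  have g31 : γ ^ 3 ≤ 1 := pow_le_one₀ hγ.le (by linarith)
  have g41 : γ ^ 4 ≤ γ := by nlinarith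
  obtain ⟨d, hd, hF⟩ := stair_all (γ ^ 4) g4
  obtain ⟨m, hm⟩ := exists_pow_lt_of_lt_one hγ (show (1 / 2 : ℝ) < 1 by norm_num)
  have e1 : ∀ᶠ L : ℝ in atTop, 0 ≤ L ∧ (∀ j ∈ Finset.range m, 1 ≤ lev L j) ∧
      lev L (0 + 1) ≤ γ * lev L 0 := (eventually_ge_atTop 0).and
    (((eventually_all_finset _).2 fun j _ => (lev_stmt.1 j).eventually_ge_atTop 1).and
      (lev_stmt.2.2.2.2 0 γ hγ))
  obtain ⟨L0, hL0⟩ := eventually_atTop.1 e1
  have e2 : ∀ᶠ l : ℝ in atTop, L0 ≤ l ∧ 1 ≤ l ∧ 120 ≤ γ ^ 3 * l ∧ Real.exp (-l) < d ∧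
      ‖Real.log (l / γ ^ 3)‖ ≤ γ ^ 7 / 2 * ‖id (l / γ ^ 3)‖ :=
    (eventually_ge_atTop _).and ((eventually_ge_atTop _).and
      (((tendsto_id.const_mul_atTop g3).eventually_ge_atTop _).and
      ((Real.tendsto_exp_neg_atTop_nhds_zero.eventually (gt_mem_nhds hd)).and
      ((tendsto_id.atTop_div_const g3).eventually
        (Real.isLittleO_log_id_atTop.bound (by positivity))))))
  obtain ⟨l0, hl0⟩ := eventually_atTop.1 e2
  refine ⟨l0, fun a b ha ha1 hb hb1 hl => ?_⟩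
  obtain ⟨c1, c2, c3, c4, c5⟩ := hl0 _ hl
  have hx : 0 < a / b ^ 2 := by positivity
  have ex := Real.exp_log hx
  have hs : 0 < a / b := by positivity
  have a2 : a ^ 2 < 1 := by nlinarith
  have b2 : b ^ 2 < 1 := by nlinarith
  have hfin : ∀ w, 0 ≤ w → value (1 - b ^ 2) w (-1) ≠ ⊤ := fun w hw =>
    ne_top_of_le_ne_top ENNReal.one_ne_top (value_le_one' _ hw _)
  have hP1 : (value (1 - b ^ 2) (1 - a ^ 2) (-1)).toReal ≤ 1 :=
    ENNReal.toReal_le_of_le_ofReal zero_le_one (by simpa using value_le_one' _ (by linarith) _)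
  have hlow := fun h => (ENNReal.ofReal_le_iff_le_toReal (hfin _ (by linarith))).1
    (low_rel hγ hγ1 ha hb ha1.le c3 h)
  have hup := fun h => ENNReal.toReal_le_of_le_ofReal (by positivity)
    (up_rel hγ hγ1 ha hb ha1.le c3 h)
  have hF' : ∀ w, 1 - d < w → w < 1 → |(value (1 - b ^ 2) w (-1)).toReal - (1 - ∏' k : ℕ,
      (1 - min 1 (lev (Real.log (1 / (1 - w))) k * √((1 - w) / b ^ 2)) / 2))| ≤ γ ^ 4 :=
    fun w h1 h2 => by
      have h3 := hF (1 - b ^ 2) w (-1) (by linarith) (by simp; positivity) h1 h2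
      rwa [norm_neg, norm_one, div_one, sub_sub_cancel] at h3
  set l := Real.log (a / b ^ 2) with hldef
  have hb2 : b ^ 2 ≤ Real.exp (-l) := by
    rw [Real.exp_neg, ex, inv_div, le_div_iff₀ ha]
    nlinarith [sq_nonneg b]
  have facts : ∀ L s : ℝ, 0 ≤ L → 0 ≤ s → (∀ j, 0 ≤ lev L j * s) ∧
      (∀ j, lev L (j + 1) * s ≤ lev L j * s / 2) ∧ ∃ n, ∀ j, n ≤ j → lev L j * s = 0 :=
    fun L s hL hs => ⟨fun j => mul_nonneg (lev_stmt.2.2.1 L j hL).1 hs, fun j => by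
      linarith [mul_le_mul_of_nonneg_right (lev_stmt.2.2.1 L j hL).2.2 hs], by
      obtain ⟨n, hn⟩ := lev_stmt.2.2.2.1 L
      exact ⟨n, fun j hj => by rw [hn j hj, zero_mul]⟩⟩
  obtain ⟨f0, f1, n, f2⟩ := facts (2 * l) (a / b) (by linarith) hs.le
  obtain ⟨-, k1, k2⟩ := hL0 (2 * l) (by linarith)
  have t0 : lev (2 * l) 0 * (a / b) = a / b * l := by
    rw [lev]
    ring
  set Q := ∏' k : ℕ, (1 - min 1 (lev (2 * l) k * (a / b)) / 2) with hQ
  set P := (value (1 - b ^ 2) (1 - a ^ 2) (-1)).toReal with hP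
  suffices h : 0 < 1 - Q ∧ |P - (1 - Q)| ≤ 30 * γ * (1 - Q) by
    rw [div_sub_one h.1.ne', abs_div, abs_of_pos h.1, div_le_iff₀ h.1]
    exact h.2
  rw [abs_le]
  rcases le_total (a / b * l) (γ ^ 3) with h3 | h3
  · obtain ⟨p1, p2⟩ := prodB_Main _ f0 f1 n f2 0 (fun j hj => absurd hj (by omega))
      (by rw [t0]; linarith)
    have p3 := mul_le_mul_of_nonneg_right k2 hs.le
    rw [mul_assoc, t0] at p3
    rw [pow_zero, one_mul, t0, ← hQ] at p1 p2
    have hΨ : 0 < a / b * l := by positivity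
    have p4 := hlow h3
    have p5 := hup h3
    have p6 := mul_le_mul_of_nonneg_left (show a / b * l / 2 ≤ 1 - Q by linarith) hγ.le
    have p7 : 0 < γ * (a / b * l) := by positivity
    refine ⟨by linarith, by linarith, by linarith⟩
  rcases le_total 1 (a / b) with h1 | h1
  · obtain ⟨p1, p2⟩ := prodA_Main _ f0 f1 n f2 m fun j hj =>
      one_le_mul_of_one_le_of_one_le (k1 j (Finset.mem_range.2 hj)) h1
    have hba : b ^ 2 ≤ a ^ 2 := by
      gcongr
      exact (one_le_div hb).1 h1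
    have q1 := hF' (1 - b ^ 2) (by linarith) (by linarith [pow_pos hb 2])
    rw [sub_sub_cancel, div_self (by positivity), Real.sqrt_one] at q1
    have q2 : l ≤ Real.log (1 / b ^ 2) := Real.log_le_log hx (by gcongr)
    obtain ⟨q3, q4, -⟩ := hL0 _ (c1.trans q2)
    obtain ⟨u0, u1, n', u2⟩ := facts _ 1 q3 zero_le_one
    obtain ⟨-, q5⟩ := prodA_Main _ u0 u1 n' u2 m fun j hj => by
      rw [mul_one]
      exact q4 j (Finset.mem_range.2 hj)
    have q6 := ENNReal.toReal_mono (hfin _ (by linarith))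
      (value_anti (1 - b ^ 2) (show 1 - a ^ 2 ≤ 1 - b ^ 2 by linarith) (-1))
    obtain ⟨q7, -⟩ := abs_le.1 q1
    rw [← hQ] at p1 p2
    rw [← hP] at q6
    have p6 := mul_le_mul_of_nonneg_left (show 1 / 2 ≤ 1 - Q by linarith) hγ.le
    refine ⟨by linarith, by linarith, by linarith⟩
  have hab : a ≤ b := (div_le_one hb).1 h1
  have hab2 : a ^ 2 ≤ b ^ 2 := by gcongr
  have q1 := hF' (1 - a ^ 2) (by linarith) (by linarith [pow_pos ha 2])
  rw [sub_sub_cancel, ← div_pow, Real.sqrt_sq hs.le, ← hP] at q1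
  have eL : Real.log (1 / a ^ 2) = 2 * l - 4 * Real.log (a / b) := by
    rw [hldef, Real.log_div one_ne_zero (by positivity), Real.log_div ha.ne' (by positivity),
      Real.log_div ha.ne' hb.ne', Real.log_pow, Real.log_pow, Real.log_one]
    push_cast
    ring
  have r1 : Real.log (a / b) ≤ 0 := Real.log_nonpos hs.le h1
  have r2 : -Real.log (a / b) ≤ γ ^ 4 * l / 2 := by
    have r3 : (a / b)⁻¹ ≤ l / γ ^ 3 := by
      rw [inv_le_iff_one_le_mul₀' hs, ← mul_div_assoc, one_le_div g3]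
      exact h3
    rw [← Real.log_inv]
    refine (Real.log_le_log (by positivity) r3).trans ((le_abs_self _).trans (c5.trans_eq ?_))
    rw [id, Real.norm_of_nonneg (by positivity)]
    field_simp
  have q2 := stair_cmp (L := Real.log (1 / a ^ 2)) (L' := 2 * l) g4.le (by linarith) (by linarith)
    (by linarith) (by
      have r3 := mul_le_mul_of_nonneg_left r2 (show 0 ≤ 1 - γ ^ 4 by linarith)
      have r4 : 0 ≤ γ ^ 4 * γ ^ 4 * l := by positivity
      rw [eL]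
      linarith) hs.le h1
  rw [← hQ] at q2
  have q3 : γ ^ 3 / 2 ≤ 1 - Q := by
    rcases le_total (a / b * l) 1 with h4 | h4
    · obtain ⟨-, p2⟩ := prodB_Main _ f0 f1 n f2 0 (fun j hj => absurd hj (by omega))
        (by rw [t0]; linarith)
      rw [pow_zero, one_mul, t0, ← hQ] at p2
      linarith
    · obtain ⟨-, p2⟩ := prodA_Main _ f0 f1 n f2 1 fun j hj => by
        rw [show j = 0 by omega, t0]
        exact h4
      rw [← hQ] at p2
      linarith
  obtain ⟨q4, q5⟩ := abs_le.1 q1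
  obtain ⟨q6, q7⟩ := abs_le.1 q2
  have p6 := mul_le_mul_of_nonneg_left q3 hγ.le
  refine ⟨by linarith, by linarith, by linarith⟩

theorem fast_rel (η : ℝ) (hη : 0 < η) : ∃ K : ℝ, ∀ (r w : ℝ) (A : ℂ), 0 < r → r < ‖A‖ → 0 < w →
    w < 1 → K ≤ √(1 - w) / (1 - r / ‖A‖) →
      |(value r w A).toReal / (1 - ∏' k : ℕ, (1 - min 1 (lev (2 * Real.log
        (√(1 - w) / (1 - r / ‖A‖))) k * √((1 - w) / (1 - r / ‖A‖))) / 2)) - 1| ≤ η := by
  obtain ⟨l0, h⟩ := rel_ab (γ := min η 1 / 30) (by positivity) (by linarith [min_le_right η 1])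
  refine ⟨Real.exp l0, fun r w A hr hA hw hw1 hK => ?_⟩
  have hR : 0 < ‖A‖ := hr.trans hA
  have hρ : 0 < r / ‖A‖ := by positivity
  have hδ : 0 < 1 - r / ‖A‖ := sub_pos.2 ((div_lt_one hR).2 hA)
  have hε : 0 < 1 - w := by linarith
  have h1 := h √(1 - w) √(1 - r / ‖A‖) (Real.sqrt_pos.2 hε)
    ((Real.sqrt_lt' one_pos).2 (by linarith)) (Real.sqrt_pos.2 hδ)
    ((Real.sqrt_lt' one_pos).2 (by linarith))
  rw [Real.sq_sqrt hε.le, Real.sq_sqrt hδ.le, ← Real.sqrt_div hε.le, sub_sub_cancel,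
    sub_sub_cancel] at h1
  rw [scale_stmt.1 r w A (norm_pos_iff.1 hR)]
  refine (h1 ((Real.le_log_iff_exp_le (by positivity)).2 hK)).trans ?_
  linarith [min_le_left η 1]

end Pool.Agent.MP_66a317_pr.All
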