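import Pool.Agent.MP_66a317_pr.All.Thin

open MeasureTheory Metric Set
open scoped NNReal ENNReal

namespace Pool.Agent.MP_66a317_pr.All

open Fast

theorem num_l {γ l : ℝ} (hγ : 0 < γ) (hγ1 : γ ≤ 1 / 10) (hl : 120 ≤ γ ^ 3 * l) :
    1200 ≤ γ ^ 2 * l ∧ 12000 ≤ γ * l ∧ 1 ≤ l := by
  have l0 : 0 < l := (mul_pos_iff_of_pos_left (pow_pos hγ 3)).1 (by linarith)
  have h1 := mul_le_mul_of_nonneg_right hγ1 (show 0 ≤ γ ^ 2 * l by positivity)
  have h2 := mul_le_mul_of_nonneg_right hγ1 (show 0 ≤ γ * l by positivity)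
  have h3 := mul_le_mul_of_nonneg_right hγ1 l0.le
  refine ⟨by linarith, by linarith, by linarith⟩

theorem num_b {a b γ : ℝ} (hγ : 0 < γ) (hγ1 : γ ≤ 1 / 10) (ha : 0 < a) (hb : 0 < b) (ha1 : a ≤ 1)
    (hl : 120 ≤ γ ^ 3 * Real.log (a / b ^ 2)) (hs : a / b * Real.log (a / b ^ 2) ≤ γ ^ 3) :
    a / b ≤ γ ^ 3 ∧ b ^ 2 ≤ γ / 12000 ∧ b ≤ 1 / 100 ∧ a ≤ b / 1000 := by
  obtain ⟨-, l1, l3⟩ := num_l hγ hγ1 hl
  have s1 : a / b ≤ γ ^ 3 := (le_mul_of_one_le_right (by positivity) l3).trans hs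
  have h1 := Real.log_le_sub_one_of_pos (show 0 < a / b ^ 2 by positivity)
  have h2 : Real.log (a / b ^ 2) * b ^ 2 ≤ a := (le_div_iff₀ (by positivity)).1 (by linarith)
  have h3 := mul_le_mul_of_nonneg_right l1 (sq_nonneg b)
  have h4 := mul_le_mul_of_nonneg_left (h2.trans ha1) hγ.le
  have b1 : b ^ 2 ≤ γ / 12000 := by linarith
  have g : γ ^ 3 ≤ (1 / 10) ^ 3 := by gcongr
  refine ⟨s1, b1, le_of_sq_le_sq (by linarith) (by norm_num), ?_⟩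
  have := (div_le_iff₀ hb).1 (s1.trans g)
  linarith

theorem num_N {γ x : ℝ} (hγ : 0 < γ) (hγ1 : γ ≤ 1 / 10) (hx : 0 < x)
    (l2 : 1200 ≤ γ ^ 2 * Real.log x) (l1 : 12000 ≤ γ * Real.log x) {n : ℕ}
    (hn1 : (1 + γ) ^ n ≤ 2 * x / γ) : ((n + 1 : ℕ) : ℝ) * γ + 1 ≤ (1 + 3 * γ) * Real.log x := by
  have h1 : n * Real.log (1 + γ) ≤ Real.log x + 2 / γ := by
    rw [← Real.log_pow]
    refine (Real.log_le_log (by positivity) hn1).trans ?_
    rw [show 2 * x / γ = x * (2 / γ) by ring, Real.log_mul hx.ne' (by positivity)]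
    linarith [Real.log_le_sub_one_of_pos (show 0 < 2 / γ by positivity)]
  have h2 : γ ≤ (1 + γ) * Real.log (1 + γ) := by
    have h := mul_le_mul_of_nonneg_left
      (Real.one_sub_inv_le_log_of_pos (show 0 < 1 + γ by linarith)) (show 0 ≤ 1 + γ by linarith)
    rw [mul_sub, mul_inv_cancel₀ (by linarith)] at h
    linarith
  have h3 : 2 / γ ≤ γ * Real.log x / 2 := by
    rw [div_le_iff₀ hγ]
    linarith
  have h4 := mul_le_mul_of_nonneg_left h2 (Nat.cast_nonneg (α := ℝ) n)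
  have h5 := mul_le_mul_of_nonneg_left (h1.trans (add_le_add_right h3 _))
    (show 0 ≤ 1 + γ by linarith)
  have h6 := mul_le_mul_of_nonneg_right hγ1 (show 0 ≤ γ * Real.log x by linarith)
  push_cast
  linarith

theorem num_F {a b γ q l N : ℝ} (hγ : 0 < γ) (hγ1 : γ ≤ 1 / 10) (ha : 0 < a) (hb : 0 < b)
    (q1 : 7 / 5 ≤ q) (l3 : 1 ≤ l) (hN : N * γ + 1 ≤ (1 + 3 * γ) * l) :
    ((N * γ + 1) * (q * a) / (1 - γ) ^ 2 + 2 * N * (4 * a * γ ^ 2)) /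
      (2 * ((1 - γ) * q * b) * (1 - γ)) ≤ (1 + 28 * γ) * (a / b * l / 2) := by
  have hu : 0 < 1 - γ := by linarith
  have q0 : 0 < q := by linarith
  have g2 : γ ^ 2 ≤ γ / 10 := by nlinarith
  have g3 : 0 < γ ^ 3 := by positivity
  have c1 : (N * γ + 1) * (q * a) / (1 - γ) ^ 2 ≤ q * a * l * (1 + 3 * γ) ^ 2 := by
    rw [div_le_iff₀ (by positivity)]
    have c2 : 1 ≤ (1 + 3 * γ) * (1 - γ) ^ 2 := by linarith
    calc _ = q * a * (N * γ + 1) * 1 := by ring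
      _ ≤ q * a * ((1 + 3 * γ) * l) * ((1 + 3 * γ) * (1 - γ) ^ 2) := by gcongr
      _ = _ := by ring
  have c3 : 2 * N * (4 * a * γ ^ 2) ≤ q * a * l * (12 * γ) := by
    have c5 := mul_le_mul_of_nonneg_right hγ1 (show 0 ≤ l by linarith)
    have c4 : N * γ ≤ 2 * l := by linarith
    calc _ = 8 * (N * γ) * (a * γ) := by ring
      _ ≤ 8 * (2 * l) * (a * γ) := by gcongr
      _ = 4 / 3 * a * l * (12 * γ) := by ring
      _ ≤ _ := by gcongr; linarith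
  have c2 : (1 + 3 * γ) ^ 2 + 12 * γ ≤ (1 + 28 * γ) * (1 - γ) ^ 2 := by linarith
  calc _ ≤ q * a * l * ((1 + 3 * γ) ^ 2 + 12 * γ) / (2 * ((1 - γ) * q * b) * (1 - γ)) :=
        div_le_div_of_nonneg_right (by linarith) (by positivity)
    _ = ((1 + 3 * γ) ^ 2 + 12 * γ) / (1 - γ) ^ 2 * (a / b * l / 2) := by field_simp
    _ ≤ _ := mul_le_mul_of_nonneg_right ((div_le_iff₀ (by positivity)).2 c2) (by positivity)

theorem up_rel {a b γ : ℝ} (hγ : 0 < γ) (hγ1 : γ ≤ 1 / 10) (ha : 0 < a) (hb : 0 < b) (ha1 : a ≤ 1)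
    (hl : 120 ≤ γ ^ 3 * Real.log (a / b ^ 2)) (hs : a / b * Real.log (a / b ^ 2) ≤ γ ^ 3) :
    value (1 - b ^ 2) (1 - a ^ 2) (-1) ≤
      ENNReal.ofReal ((1 + 30 * γ) * (a / b * Real.log (a / b ^ 2) / 2)) := by
  obtain ⟨l2, l1, l3⟩ := num_l hγ hγ1 hl
  obtain ⟨s1, b1, b2, s3⟩ := num_b hγ hγ1 ha hb ha1 hl hs
  have hx : 0 < a / b ^ 2 := by positivity
  obtain ⟨q, q0, q2⟩ : ∃ q : ℝ, 0 < q ∧ q ^ 2 = 2 := ⟨√2, by positivity, Real.sq_sqrt (by norm_num)⟩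
  have q1 : 7 / 5 ≤ q := le_of_sq_le_sq (by linarith) q0.le
  have q3 : q ≤ 3 / 2 := le_of_sq_le_sq (by linarith) (by norm_num)
  have hu : 9 / 10 ≤ 1 - γ := by linarith
  have ht0 : 0 < γ * b ^ 2 / (2 * a ^ 2) := by positivity
  have x1 : 1 ≤ 2 * (a / b ^ 2) / γ := by
    rw [le_div_iff₀ hγ]
    linarith [Real.log_le_sub_one_of_pos hx]
  obtain ⟨n, hn1, hn2⟩ := exists_nat_pow_near x1 (show 1 < 1 + γ by linarith)
  have hT : 1 / a ≤ γ * b ^ 2 / (2 * a ^ 2) * (1 + γ) ^ (n + 1) := by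
    calc 1 / a = γ * b ^ 2 / (2 * a ^ 2) * (2 * (a / b ^ 2) / γ) := by field_simp
      _ ≤ _ := by gcongr
  have hN := num_N hγ hγ1 hx l2 l1 hn1
  have hΦ : 0 < (1 - γ) * q * b := by positivity
  have hΦ1 : (1 - γ) * q * b ≤ 1 * (3 / 2) * b := by gcongr; linarith
  have hΦ2 : 9 / 10 * (7 / 5) * b ≤ (1 - γ) * q * b := by gcongr
  have g2 : γ ^ 2 ≤ (1 / 10) ^ 2 := by gcongr
  have a2 : a ^ 2 ≤ b ^ 2 := by gcongr; linarith
  have hγb : 0 < γ * b ^ 2 := by positivity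
  have hub : (1 - γ) * b ^ 2 ≤ 1 * b ^ 2 := by gcongr; linarith
  have h := up_fan (ε := a ^ 2) (δ := b ^ 2) (δ' := (1 - γ) * b ^ 2) (Φ := (1 - γ) * q * b)
    (t0 := γ * b ^ 2 / (2 * a ^ 2)) (lam := 1 + γ) (ζ := γ) (D := 4 * a * γ ^ 2) (n + 1) hγ
    (by linarith) (by positivity) (by positivity) (by linarith) (by linarith) hΦ (by linarith) ht0
    (by
      have e0 : a ^ 2 * (γ * b ^ 2 / (2 * a ^ 2)) = γ * b ^ 2 / 2 := by field_simp
      have e1 : ((1 - γ) * q * b) ^ 2 / 2 = (1 - γ) ^ 2 * b ^ 2 := by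
        linear_combination (1 - γ) ^ 2 * b ^ 2 / 2 * q2
      rw [e0, e1]
      linarith [mul_le_mul_of_nonneg_right hγ1 hγb.le])
    (by linarith) (by linarith)
    (by
      calc _ = a ^ 2 + 2 * (a / b) ^ 2 / γ := by field_simp
        _ ≤ b ^ 2 + 2 * (γ ^ 3) ^ 2 / γ := by gcongr
        _ = b ^ 2 + 2 * γ * (γ ^ 2) ^ 2 := by field_simp
        _ ≤ γ / 12000 + 2 * γ * ((1 / 10) ^ 2) ^ 2 := by gcongr
        _ ≤ _ := by linarith)
    (by positivity)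
    (by
      calc _ = 16 * a ^ 2 * (a / b) ^ 2 / γ := by
            field_simp
            ring
        _ ≤ 16 * a ^ 2 * (γ ^ 3) ^ 2 / γ := by gcongr
        _ = γ * (4 * a * γ ^ 2) ^ 2 := by
            field_simp
            ring
        _ ≤ 1 * _ := by gcongr; linarith
        _ = _ := one_mul _)
    (by
      have c1 : 4 * a * γ ^ 2 ≤ 4 * a * (1 / 10) ^ 2 := by gcongr
      calc _ ≤ (4 * b) ^ 2 := pow_le_pow_left₀ (by positivity) (by linarith) 2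
        _ ≤ _ := by linarith)
    (Nat.succ_pos n) (((one_le_div ha).2 ha1).trans hT)
  rw [show 2 * a ^ 2 = (q * a) ^ 2 by rw [mul_pow, q2], Real.sqrt_sq (by positivity),
    add_sub_cancel_left, mul_pow q, q2] at h
  refine h.trans (ENNReal.ofReal_le_ofReal ?_)
  have d1 := num_F hγ hγ1 ha hb q1 l3 hN
  have d2 : 60 / (γ * ((1 - γ) * q * b) * (γ * b ^ 2 / (2 * a ^ 2) * (1 + γ) ^ (n + 1))) ≤
      γ * (a / b * Real.log (a / b ^ 2)) := by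
    calc _ ≤ 60 / (γ * b * (1 / a)) := by gcongr; linarith
      _ = 60 * (a / b / γ) := by field_simp
      _ ≤ γ ^ 2 * Real.log (a / b ^ 2) * (a / b / γ) := by gcongr; linarith
      _ = _ := by field_simp
  linarith

end Pool.Agent.MP_66a317_pr.All
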