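import Pool.Agent.MP_66a317_pr.All.Cap2
import Pool.Agent.MP_66a317_pr.All.RelUp

open MeasureTheory Metric Set
open scoped NNReal ENNReal

namespace Pool.Agent.MP_66a317_pr.All

open Fast

theorem num_cos {b γ q : ℝ} (hγ : 0 < γ) (hγ1 : γ ≤ 1 / 10) (hb : 0 < b) (q0 : 0 < q)
    (q2 : q ^ 2 = 2) (b1 : b ^ 2 ≤ γ / 12000) : Real.cos ((1 + γ) * q * b) ≤ 1 - b ^ 2 := by
  have e : ((1 + γ) * q * b) ^ 2 = 2 * ((1 + γ) ^ 2 * b ^ 2) := by
    linear_combination (1 + γ) ^ 2 * b ^ 2 * q2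
  have h1 : (1 + γ) ^ 2 * b ^ 2 ≤ (1 + 1 / 10) ^ 2 * b ^ 2 := by gcongr
  have h2 := cos_le_of_abs_le_one (x := (1 + γ) * q * b)
    (by rw [← sq_le_one_iff_abs_le_one]; linarith)
  have h3 : ((1 + γ) * q * b) ^ 4 ≤ 3 * b ^ 2 * (3 * γ) := by
    calc _ = ((1 + γ) * q * b) ^ 2 * ((1 + γ) * q * b) ^ 2 := by ring
      _ ≤ _ := mul_le_mul (by linarith [sq_nonneg b]) (by linarith) (by positivity) (by positivity)
  have h4 : 0 ≤ γ ^ 2 * b ^ 2 := by positivity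
  have h5 : 0 ≤ γ * b ^ 2 := by positivity
  linarith

theorem num_low {γ Ψ : ℝ} (hγ : 0 < γ) (hγ1 : γ ≤ 1 / 10) (hΨ : 0 < Ψ) (hs : Ψ ≤ γ ^ 3) :
    (1 - 6 * γ) * (Ψ / 2) ≤ (1 - γ) ^ 2 * Ψ / (2 * (1 + γ) + 6 * ((1 - γ) ^ 2 * Ψ)) := by
  have h1 : (1 - γ) ^ 2 * Ψ ≤ 1 ^ 2 * γ ^ 3 := by gcongr <;> linarith
  have h2 : γ ^ 3 ≤ γ := by nlinarith [sq_nonneg γ, mul_pos hγ hγ]
  have h3 : (1 - 6 * γ) * (2 * (1 + γ) + 6 * ((1 - γ) ^ 2 * Ψ)) ≤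
      (1 - 6 * γ) * (2 * (1 + γ) + 6 * γ) := by gcongr <;> linarith
  rw [le_div_iff₀ (by positivity)]
  have h4 : (1 - 6 * γ) * (2 * (1 + γ) + 6 * ((1 - γ) ^ 2 * Ψ)) ≤ 2 * (1 - γ) ^ 2 := by
    linarith [sq_nonneg γ]
  linarith [mul_le_mul_of_nonneg_right h4 hΨ.le]

theorem low_rel {a b γ : ℝ} (hγ : 0 < γ) (hγ1 : γ ≤ 1 / 10) (ha : 0 < a) (hb : 0 < b) (ha1 : a ≤ 1)
    (hl : 120 ≤ γ ^ 3 * Real.log (a / b ^ 2)) (hs : a / b * Real.log (a / b ^ 2) ≤ γ ^ 3) :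
    ENNReal.ofReal ((1 - 6 * γ) * (a / b * Real.log (a / b ^ 2) / 2)) ≤
      value (1 - b ^ 2) (1 - a ^ 2) (-1) := by
  obtain ⟨l2, l1, l3⟩ := num_l hγ hγ1 hl
  obtain ⟨s1, b1, b2, s3⟩ := num_b hγ hγ1 ha hb ha1 hl hs
  have hx : 0 < a / b ^ 2 := by positivity
  have ex := Real.exp_log hx
  set l := Real.log (a / b ^ 2)
  have l0 : 0 < l := by linarith
  obtain ⟨q, q0, q2⟩ : ∃ q : ℝ, 0 < q ∧ q ^ 2 = 2 := ⟨√2, by positivity, Real.sq_sqrt (by norm_num)⟩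
  have q3 : q ≤ 3 / 2 := le_of_sq_le_sq (by linarith) (by norm_num)
  have hu : 0 < 1 - γ := by linarith
  have hu1 : 1 - γ ≤ 1 := by linarith
  have ht0 : 0 < b ^ 2 / (γ * a ^ 2) := by positivity
  have a2 : a ^ 2 ≤ b ^ 2 := by gcongr; linarith
  have a3 : (1 - γ) * a ^ 2 ≤ 1 * a ^ 2 := by gcongr
  have hT : b ^ 2 / (γ * a ^ 2) ≤ b ^ 2 / (γ * a ^ 2) * Real.exp ((1 - γ) * l) :=
    le_mul_of_one_le_right ht0.le (Real.one_le_exp (by positivity))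
  have hE0 := Real.exp_pos (γ * l)
  have eT : b ^ 2 / (γ * a ^ 2) * Real.exp ((1 - γ) * l) = 1 / (a * (γ * Real.exp (γ * l))) := by
    rw [sub_mul, one_mul, Real.exp_sub, ex]
    field_simp
  have hE : 60 * l ≤ γ * Real.exp (γ * l) := by
    have h1 := Real.quadratic_le_exp_of_nonneg (show 0 ≤ γ * l by positivity)
    have h2 : γ * ((γ * l) ^ 2 / 2) ≤ γ * Real.exp (γ * l) := by gcongr; linarith
    linarith [mul_le_mul_of_nonneg_right hl l0.le]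
  have h := low_core2 (e := (1 - γ) * a ^ 2) (κ := (1 - γ) * q * a) (t0 := b ^ 2 / (γ * a ^ 2))
    (T := b ^ 2 / (γ * a ^ 2) * Real.exp ((1 - γ) * l)) (B := (1 + γ) * q * b)
    (V := (1 - γ) * q * a * ((1 - γ) * l)) (δ := b ^ 2) (ε := a ^ 2) (by positivity) (by linarith)
    (by positivity) (by linarith) (by positivity)
    (by
      have e : ((1 - γ) * q * a) ^ 2 = 2 * ((1 - γ) ^ 2 * a ^ 2) := by
        linear_combination (1 - γ) ^ 2 * a ^ 2 * q2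
      have h1 : (1 - γ) * a ^ 2 * ((1 - γ) * a ^ 2) ≤ (1 - γ) * a ^ 2 * (2 * γ) :=
        mul_le_mul_of_nonneg_left (by linarith) (by positivity)
      rw [e]
      linarith)
    ht0 hT (by positivity) (by positivity) (by positivity) (by linarith)
    (le_of_eq (by field_simp; ring)) (num_cos hγ hγ1 hb q0 q2 b1)
    (by rw [clock_of_ge hT, mul_div_cancel_left₀ _ ht0.ne', Real.log_exp])
    (by
      rw [eT]
      calc _ = (1 - γ) * a / (γ * Real.exp (γ * l)) := by field_simp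
        _ ≤ 1 * 1 / (60 * l) := by gcongr
        _ ≤ 1 * 1 / (60 * 1) := by gcongr
        _ ≤ _ := by norm_num)
    (by
      rw [eT]
      calc _ = (1 - γ) ^ 2 * q * l / 2 / (γ * Real.exp (γ * l)) := by field_simp
        _ ≤ 1 ^ 2 * (3 / 2) * l / 2 / (60 * l) := by gcongr
        _ = 1 / 80 := by field_simp; norm_num
        _ ≤ _ := by norm_num)
  refine le_trans (ENNReal.ofReal_le_ofReal ?_) h
  refine (num_low hγ hγ1 (by positivity) hs).trans (le_of_eq ?_)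
  field_simp

end Pool.Agent.MP_66a317_pr.All
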