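import Pool.Agent.Mg.F66a317.G5afe50

open MeasureTheory Metric Set
open scoped NNReal ENNReal

namespace Pool.Agent.MP_66a317_pr.All

/-- annular sector -/
def sector (a b : ℝ) (I : Set ℝ) : Set ℂ := {p | ‖p‖ ∈ Ioc a b ∧ Complex.arg p ∈ I}

theorem sector_meas (a b : ℝ) {I : Set ℝ} (hI : MeasurableSet I) : MeasurableSet (sector a b I) :=
  (measurable_norm measurableSet_Ioc).inter (Complex.measurable_arg hI)

theorem sector_eq (a b : ℝ) {I : Set ℝ} (hI : MeasurableSet I) :
    volume (sector a b I) = ∫⁻ p in polarCoord.target,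
      (Ioc a b ×ˢ I).indicator (fun p : ℝ × ℝ => ENNReal.ofReal p.1) p := by
  rw [← lintegral_indicator_one (sector_meas a b hI), ← Complex.lintegral_comp_polarCoord_symm]
  refine setLIntegral_congr_fun polarCoord.open_target.measurableSet fun p hp => ?_
  have h1 : 0 < p.1 := hp.1
  have h2 : p.2 ∈ Ioo (-Real.pi) Real.pi := hp.2
  have e1 : ‖Complex.polarCoord.symm p‖ = p.1 := by
    rw [Complex.norm_polarCoord_symm, abs_of_pos h1]
  have e2 : Complex.arg (Complex.polarCoord.symm p) = p.2 := by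
    rw [Complex.polarCoord_symm_apply]
    have := Complex.arg_mul_cos_add_sin_mul_I h1 ⟨h2.1, h2.2.le⟩
    simpa using this
  have e3 : Complex.polarCoord.symm p ∈ sector a b I ↔ p ∈ Ioc a b ×ˢ I := by
    simp only [sector, mem_ofPred_eq, e1, e2, mem_prod]
  by_cases h : p ∈ Ioc a b ×ˢ I
  · simp only [indicator_of_mem h, indicator_of_mem (e3.2 h), Pi.one_apply, smul_eq_mul, mul_one]
  · simp only [indicator_of_notMem h, indicator_of_notMem (mt e3.1 h), smul_eq_mul, mul_zero]

theorem sector_le (a b : ℝ) {I : Set ℝ} (hI : MeasurableSet I) :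
    volume (sector a b I) ≤ ENNReal.ofReal b * (ENNReal.ofReal (b - a) * volume I) := by
  rw [sector_eq a b hI]
  refine (setLIntegral_le_lintegral _ _).trans ?_
  rw [lintegral_indicator (measurableSet_Ioc.prod hI)]
  refine (setLIntegral_mono' (measurableSet_Ioc.prod hI)
    (g := fun _ => ENNReal.ofReal b) fun p hp => ENNReal.ofReal_le_ofReal hp.1.2).trans ?_
  rw [setLIntegral_const, Measure.volume_eq_prod, Measure.prod_prod, Real.volume_Ioc]

theorem le_sector {a : ℝ} (b : ℝ) (ha : 0 ≤ a) {I : Set ℝ} (hI : MeasurableSet I)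
    (hπ : I ⊆ Ioo (-Real.pi) Real.pi) :
    ENNReal.ofReal a * (ENNReal.ofReal (b - a) * volume I) ≤ volume (sector a b I) := by
  have hs : Ioc a b ×ˢ I ⊆ polarCoord.target := fun p hp => ⟨ha.trans_lt hp.1.1, hπ hp.2⟩
  rw [sector_eq a b hI, lintegral_indicator (measurableSet_Ioc.prod hI),
    Measure.restrict_restrict (measurableSet_Ioc.prod hI), inter_eq_left.2 hs]
  refine le_trans ?_ (setLIntegral_mono' (measurableSet_Ioc.prod hI)
    (f := fun _ => ENNReal.ofReal a) fun p hp => ENNReal.ofReal_le_ofReal hp.1.1.le)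
  rw [setLIntegral_const, Measure.volume_eq_prod, Measure.prod_prod, Real.volume_Ioc]

end Pool.Agent.MP_66a317_pr.All
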