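import Pool.Agent.MP_66a317_pr.All.Num

open MeasureTheory Metric Set
open scoped NNReal ENNReal

namespace Pool.Agent.MP_66a317_pr.All

open Fast

/-- the hider runs inside a sector, waits at a random point, then expands -/
theorem up_thin {r r' w T Φ F γ : ℝ} (hγ : 0 < γ) (hγ1 : γ ≤ 1 / 2) (hr : r < r') (h0 : 0 ≤ r') (h1 : r' ≤ 1) (hw : 1 / 2 ≤ w)
    (hw1 : w ≤ 1) (hT : 1 ≤ T) (hΦ : 0 < Φ) (hΦ1 : Φ ≤ 1) (hF : 0 ≤ F)
    (hB : ∀ σ : ℝ → ℂ, σ 0 = -1 → (∀ s t, dist (σ s) (σ t) ≤ |s - t|) →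
      volume {ω | ω ∈ Icc (-Φ) Φ ∧ ∃ t, 0 ≤ t ∧ t ≤ T ∧
        dist (σ t) (((w * t : ℝ) : ℂ) * cis ω) < r'} ≤ ENNReal.ofReal F) :
    value r w (-1) ≤ ENNReal.ofReal (F / (2 * Φ * (1 - γ)) + 60 / (γ * Φ * T)) := by
  have hw0 : 0 < w := by linarith
  have hT0 : 0 < T := by linarith
  set M := w * T with hMdef
  have hM : 0 < M := by positivity
  have hu : 0 < 1 - γ := by linarith
  have hM1 : 0 < (1 - γ) * M := by positivity
  have hM3 : 0 < M - (1 - γ) * M := by nlinarith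
  have hpi := Real.pi_gt_three
  have hpi4 := Real.pi_lt_d2
  have hI : MeasurableSet (Icc (-Φ) Φ) := measurableSet_Icc
  have hlow := le_sector (a := ((1 - γ) * M)) M (by positivity) hI
    (fun x hx => ⟨by linarith [hx.1], by linarith [hx.2]⟩)
  have hup := sector_le (((1 - γ) * M)) M hI
  rw [Real.volume_Icc, ← ENNReal.ofReal_mul (by linarith), ← ENNReal.ofReal_mul (by positivity)]
    at hlow hup
  have hV : 0 < ((1 - γ) * M) * ((M - ((1 - γ) * M)) * (Φ - -Φ)) := by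
    have : 0 < Φ - -Φ := by linarith
    positivity
  have h := value_le (r := r) (r' := r') (-1) hr hw0.le (sector (((1 - γ) * M)) M (Icc (-Φ) Φ))
    (sector_meas _ _ hI) (((ENNReal.ofReal_pos.2 hV).trans_le hlow).ne')
    (ne_top_of_le_ne_top ENNReal.ofReal_ne_top hup)
    (fun p t => ((max (min (w * t / ‖p‖) 1) (t / T) : ℝ) : ℂ) * p)
    (fun p hp => ⟨by simp, fun s t _ _ => by
      have a2 : ‖p‖ ≤ w * T := hp.1.2
      have hp0 : 0 < ‖p‖ := by linarith [hp.1.1]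
      rw [Complex.dist_eq, ← sub_mul, ← Complex.ofReal_sub, norm_mul, Complex.norm_real,
        Real.norm_eq_abs, ← le_div_iff₀ hp0]
      refine (abs_max_sub_max_le_max _ _ _ _).trans (max_le ?_ ?_)
      · refine (abs_min_sub_min_le_max _ _ _ _).trans (max_le ?_ (by simp; positivity))
        rw [← sub_div, ← mul_sub, abs_div, abs_mul, abs_of_pos hw0, abs_of_pos hp0]
      · rw [← sub_div, abs_div, abs_of_pos hT0, div_le_div_iff₀ hT0 hp0]
        calc |s - t| * ‖p‖ ≤ |s - t| * (w * T) := by gcongr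
          _ = _ := by ring⟩)
    (fun t => by fun_prop)
    (ENNReal.ofReal M * (ENNReal.ofReal (M - ((1 - γ) * M)) * ENNReal.ofReal F) +
      (ENNReal.ofReal (Real.pi * r' ^ 2 + 2 * r' * T) +
        ENNReal.ofReal (Real.pi * r' ^ 2 + 2 * r' * (T * (1 + w) + r'))))
    (fun σ hσ0 hσ => by
      have k1 := sector_le (((1 - γ) * M)) M (measurableSet_toMeasurable volume
        {ω | ω ∈ Icc (-Φ) Φ ∧ ∃ t, 0 ≤ t ∧ t ≤ T ∧ dist (σ t) (((w * t : ℝ) : ℂ) * cis ω) < r'})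
      rw [measure_toMeasurable] at k1
      have k2 := k1.trans (mul_le_mul_right (mul_le_mul_right (hB σ hσ0 hσ) _) _)
      refine le_trans (measure_mono ?_) ((measure_union_le _ _).trans (add_le_add k2
        ((measure_union_le _ _).trans (add_le_add
        (static_tube σ hσ h0) (expand_tube σ hσ h0 hw0.le hT0)))))
      rintro p ⟨hp, q, hq0, hq⟩
      have a2 : ‖p‖ ≤ w * T := hp.1.2
      have hp0 : 0 < ‖p‖ := by linarith [hp.1.1]
      rcases le_total (w * q) ‖p‖ with hc | hc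
      · left
        have b1 : w * q / ‖p‖ ≤ 1 := (div_le_one hp0).2 hc
        have b2 : (q : ℝ) / T ≤ w * q / ‖p‖ := by
          rw [div_le_div_iff₀ hT0 hp0]
          calc (q : ℝ) * ‖p‖ ≤ q * (w * T) := by gcongr
            _ = _ := by ring
        rw [min_eq_left b1, max_eq_left b2] at hq
        have b3 : (q : ℝ) ≤ T := le_of_mul_le_mul_left (hc.trans a2) hw0
        refine ⟨hp.1, subset_toMeasurable _ _ ⟨hp.2, q, hq0, b3, ?_⟩⟩
        have e : ((w * q / ‖p‖ : ℝ) : ℂ) * p = ((w * q : ℝ) : ℂ) * cis (Complex.arg p) := by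
          have h3 : ((‖p‖ : ℝ) : ℂ) ≠ 0 := by exact_mod_cast hp0.ne'
          conv_lhs => rw [← norm_mul_cis_arg p, norm_mul, norm_cis, mul_one, Complex.norm_real,
            norm_norm]
          rw [Complex.ofReal_div]
          field_simp
        rwa [e] at hq
      · right
        rw [min_eq_right ((one_le_div hp0).2 hc)] at hq
        rcases le_total (q : ℝ) T with hd | hd
        · left
          rw [max_eq_left ((div_le_one hT0).2 hd)] at hq
          exact ⟨q, hq0, hd, by simpa using hq⟩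
        · right
          rw [max_eq_right ((one_le_div hT0).2 hd)] at hq
          exact ⟨a2, q, hd, hq⟩)
  refine h.trans ((ENNReal.div_le_div_left hlow _).trans ?_)
  have hM2 : 0 ≤ M - ((1 - γ) * M) := by linarith
  rw [← ENNReal.ofReal_mul hM2, ← ENNReal.ofReal_mul hM.le,
    ← ENNReal.ofReal_add (by positivity) (by positivity),
    ← ENNReal.ofReal_add (by positivity) (by positivity), ← ENNReal.ofReal_div_of_pos hV]
  refine ENNReal.ofReal_le_ofReal ?_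
  rw [div_le_iff₀ hV]
  have e1 : (F / (2 * Φ * (1 - γ)) + 60 / (γ * Φ * T)) *
      ((1 - γ) * M * ((M - (1 - γ) * M) * (Φ - -Φ))) =
      M * ((M - (1 - γ) * M) * F) + 120 * ((1 - γ) * w ^ 2) * T := by
    rw [hMdef]
    field_simp
    ring
  rw [e1]
  have c1 : r' ^ 2 ≤ 1 := by nlinarith
  have c2 : Real.pi * r' ^ 2 ≤ 3.15 * 1 := by gcongr
  have c3 : r' * T ≤ T := by nlinarith
  have c4 : r' * (T * (1 + w) + r') ≤ 1 * (T * (1 + 1) + 1) := by gcongr
  have c6 : 1 / 2 * (1 / 2) ^ 2 ≤ (1 - γ) * w ^ 2 := by gcongr; linarith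
  have c5 := mul_le_mul_of_nonneg_right c6 hT0.le
  nlinarith

theorem up_fan {ε δ δ' Φ t0 lam ζ D γ : ℝ} (N : ℕ) (hγ : 0 < γ) (hγ1 : γ ≤ 1 / 2) (hε : 0 < ε)
    (hδ' : 0 < δ') (hδ : δ' < δ) (hδ1 : δ' < 1) (hΦ : 0 < Φ) (hΦ1 : Φ ≤ 1) (ha : 0 < t0)
    (h1 : ε * t0 ≤ δ' - Φ ^ 2 / 2) (hl : 1 ≤ lam) (hζ : ζ ≤ 1 / 2) (h2 : ε + 1 / t0 ≤ ζ)
    (hD0 : 0 ≤ D) (h3 : 8 * (ε / t0) ≤ D ^ 2) (h4 : (2 * Φ + 2 * D) ^ 2 ≤ ζ) (hN0 : 0 < N)
    (hT : 1 ≤ t0 * lam ^ N) :
    value (1 - δ) (1 - ε) (-1) ≤ ENNReal.ofReal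
      (((N * (lam - 1) + 1) * √(2 * ε) / (1 - ζ) ^ 2 + 2 * N * D) / (2 * Φ * (1 - γ)) +
        60 / (γ * Φ * (t0 * lam ^ N))) := by
  have a1 : 0 < 1 / t0 := by positivity
  have a2 : 0 < ε * t0 := by positivity
  have hl0 : 0 ≤ lam - 1 := by linarith
  refine up_thin (r' := 1 - δ') hγ hγ1 (by linarith) (by linarith) (by linarith) (by linarith)
    (by linarith) hT hΦ hΦ1 (by positivity) fun σ h0 hσ => ?_
  have hf := fun ω (hω : ω ∈ Icc (-Φ) Φ) t ht =>
    front_UpFanCore h0 hσ (abs_le.2 hω) (t := t) ht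
  have key := fan_stmt fanLoc_stmt σ (1 - δ') ε 0 t0 lam ζ Φ D N (Icc (-Φ) Φ) hσ (by linarith)
    (by linarith) hε le_rfl ha hl hζ h2 hD0 (by rwa [zero_div, zero_add]) h4 hN0
    (fun ω hω => abs_le.2 hω) fun ω hω u hu => (hf ω hω u (by linarith)).trans (by linarith)
  rw [mul_zero, zero_div, zero_add, Real.div_sqrt, ← add_one_mul] at key
  refine (measure_mono ?_).trans key
  rintro ω ⟨hω, t, t0, t1, t2⟩
  refine ⟨hω, t, not_lt.1 fun t3 => ?_, t1, t2⟩
  have b1 := proj_UpFanCore (σ t) ((1 - ε) * t) ω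
  have b2 := hf ω hω t t0
  have b3 := mul_lt_mul_of_pos_left t3 hε
  linarith

end Pool.Agent.MP_66a317_pr.All
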